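import Mathlib

open Cardinal Module

universe u

namespace Pool.Agent.H61.GLU

variable {F : Type u} [Field F]

/-- A subspace `U` of `V` is large if `dim U = dim V / U = dim V`. -/
def Large {V : Type u} [AddCommGroup V] [Module F V] (U : Submodule F V) : Prop :=
  Module.rank F U = Module.rank F V ∧ Module.rank F (V ⧸ U) = Module.rank F V

/-- `H` induces the full linear group on every large subspace. -/
def Star {V : Type u} [AddCommGroup V] [Module F V]
    (H : Subgroup (LinearMap.GeneralLinearGroup F V)) : Prop :=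
  ∀ U : Submodule F V, Large U → ∀ g : U ≃ₗ[F] U, ∃ h ∈ H, ∀ u : U, (h : V →ₗ[F] V) u = g u

variable {V : Type u} [AddCommGroup V] [Module F V]
variable {M C : Type u} [AddCommGroup M] [Module F M] [AddCommGroup C] [Module F C]
variable {M' C' : Type u} [AddCommGroup M'] [Module F M'] [AddCommGroup C'] [Module F C']

theorem rank_quot_split (e : (M × C) ≃ₗ[F] V) :
    Module.rank F (V ⧸ LinearMap.range (e.toLinearMap ∘ₗ LinearMap.inl F M C)) =
      Module.rank F C := by
  let q : V →ₗ[F] C := LinearMap.snd F M C ∘ₗ e.symm.toLinearMap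
  have hq : Function.Surjective q := fun c => ⟨e (0, c), by simp [q]⟩
  have hk : LinearMap.range (e.toLinearMap ∘ₗ LinearMap.inl F M C) = LinearMap.ker q := by
    ext v
    simp only [LinearMap.mem_range, LinearMap.mem_ker]
    constructor
    · rintro ⟨m, rfl⟩
      simp [q]
    · intro h
      refine ⟨(e.symm v).1, ?_⟩
      have h2 : (e.symm v).2 = 0 := h
      have : ((e.symm v).1, (0 : C)) = e.symm v := by
        rw [← h2]
      simp [this]
  exact ((Submodule.quotEquivOfEq _ _ hk).trans (q.quotKerEquivOfSurjective hq)).rank_eq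

theorem exists_split (f : M →ₗ[F] V) (hf : Function.Injective f)
    (hC : Module.rank F (V ⧸ LinearMap.range f) = Module.rank F C) :
    ∃ e : (M × C) ≃ₗ[F] V, ∀ m, e (m, 0) = f m := by
  obtain ⟨Q, hQ⟩ := (LinearMap.range f).exists_isCompl
  have e1 := (Submodule.quotientEquivOfIsCompl _ _ hQ)
  have e2 : C ≃ₗ[F] Q := LinearEquiv.ofRankEq _ _ (by rw [← hC, e1.rank_eq])
  refine ⟨(LinearEquiv.prodCongr (LinearEquiv.ofInjective f hf) e2).trans
    (Submodule.prodEquivOfIsCompl _ _ hQ), fun m => by simp⟩

theorem large_range {e : (M × C) ≃ₗ[F] V} (hM : Module.rank F M = Module.rank F V)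
    (hC : Module.rank F C = Module.rank F V) :
    Large (LinearMap.range (e.toLinearMap ∘ₗ LinearMap.inl F M C)) := by
  refine ⟨?_, by rw [rank_quot_split, hC]⟩
  rw [← hM]
  exact (LinearEquiv.ofInjective (e.toLinearMap ∘ₗ LinearMap.inl F M C)
    (e.injective.comp LinearMap.inl_injective)).rank_eq.symm

theorem star_coord {H : Subgroup (LinearMap.GeneralLinearGroup F V)} (hH : Star H)
    (hM : Module.rank F M = Module.rank F V)
    (hC : Module.rank F C = Module.rank F V) (e : (M × C) ≃ₗ[F] V) (g : M ≃ₗ[F] M) :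
    ∃ h ∈ H, ∀ m, (h : V →ₗ[F] V) (e (m, 0)) = e (g m, 0) := by
  have hinj : Function.Injective (e.toLinearMap ∘ₗ LinearMap.inl F M C) :=
    e.injective.comp LinearMap.inl_injective
  let i := LinearEquiv.ofInjective (e.toLinearMap ∘ₗ LinearMap.inl F M C) hinj
  obtain ⟨h, hh, hu⟩ := hH _ (large_range (e := e) hM hC) ((i.symm.trans g).trans i)
  refine ⟨h, hh, fun m => ?_⟩
  have h1 := hu (i m)
  have h2 : ((i m : _) : V) = e (m, 0) := rfl
  have h3 : ((i (g m) : _) : V) = e (g m, 0) := rfl
  rw [h2] at h1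
  rw [h1, ← h3]
  simp

/-- splitting an infinite-dimensional space in two. -/
theorem exists_double (hV : ℵ₀ ≤ Module.rank F V) (hM : Module.rank F M = Module.rank F V) 
    (hM' : Module.rank F M' = Module.rank F V) :
    Nonempty ((M × M') ≃ₗ[F] V) := by
  apply nonempty_linearEquiv_of_rank_eq
  rw [rank_prod', hM, hM', Cardinal.add_eq_self hV]

theorem rank_prod_eq (hV : ℵ₀ ≤ Module.rank F V) (hM : Module.rank F M = Module.rank F V) 
    (hM' : Module.rank F M' = Module.rank F V) :
    Module.rank F (M × M') = Module.rank F V := by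
  rw [rank_prod', hM, hM', Cardinal.add_eq_self hV]

/-- If the cokernel of `S` has full dimension there is a surjection `V → V × V` with kernel `S`. -/
theorem exists_proj (hV : ℵ₀ ≤ Module.rank F V) (S : Submodule F V)
    (hc : Module.rank F (V ⧸ S) = Module.rank F V) :
    ∃ p : V →ₗ[F] V × V, Function.Surjective p ∧ LinearMap.ker p = S := by
  obtain ⟨e2⟩ := exists_double (M := V) (M' := V) (V := V) hV rfl rfl
  have e3 : (V ⧸ S) ≃ₗ[F] V := LinearEquiv.ofRankEq _ _ hc
  refine ⟨e2.symm.toLinearMap ∘ₗ e3.toLinearMap ∘ₗ S.mkQ, ?_, ?_⟩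
  · intro x
    obtain ⟨v, hv⟩ := S.mkQ_surjective (e3.symm (e2 x))
    exact ⟨v, by simp [hv]⟩
  · ext v
    simp

/-- good case of the homogeneity lemma -/
theorem move_good {H : Subgroup (LinearMap.GeneralLinearGroup F V)} (hH : Star H)
    (hV : ℵ₀ ≤ Module.rank F V)
    (hM : Module.rank F M = Module.rank F V) (f f' : M →ₗ[F] V)
    (hf : Function.Injective f) (hf' : Function.Injective f')
    (hc : Module.rank F (V ⧸ (LinearMap.range f ⊔ LinearMap.range f')) = Module.rank F V) :
    ∃ h ∈ H, ∀ m, (h : V →ₗ[F] V) (f m) = f' m := by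
  obtain ⟨p, hp, hk⟩ := exists_proj hV _ hc
  let p1 : V →ₗ[F] V := LinearMap.fst F V V ∘ₗ p
  let p2 : V →ₗ[F] V := LinearMap.snd F V V ∘ₗ p
  set W := LinearMap.ker p2 with hW
  have hfW : ∀ m, f m ∈ W := by
    intro m
    have : f m ∈ LinearMap.ker p := by
      rw [hk]; exact Submodule.mem_sup_left ⟨m, rfl⟩
    simp only [hW, LinearMap.mem_ker, p2, LinearMap.comp_apply] 
    rw [LinearMap.mem_ker.1 this]; simp
  have hf'W : ∀ m, f' m ∈ W := by
    intro m
    have : f' m ∈ LinearMap.ker p := by
      rw [hk]; exact Submodule.mem_sup_right ⟨m, rfl⟩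
    simp only [hW, LinearMap.mem_ker, p2, LinearMap.comp_apply] 
    rw [LinearMap.mem_ker.1 this]; simp
  have hfk : ∀ m, p1 (f m) = 0 := by
    intro m
    have : f m ∈ LinearMap.ker p := by
      rw [hk]; exact Submodule.mem_sup_left ⟨m, rfl⟩
    simp only [p1, LinearMap.comp_apply] 
    rw [LinearMap.mem_ker.1 this]; simp
  have hf'k : ∀ m, p1 (f' m) = 0 := by
    intro m
    have : f' m ∈ LinearMap.ker p := by
      rw [hk]; exact Submodule.mem_sup_right ⟨m, rfl⟩
    simp only [p1, LinearMap.comp_apply] 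
    rw [LinearMap.mem_ker.1 this]; simp
  have hp1 : Function.Surjective (p1 ∘ₗ W.subtype) := by
    intro v
    obtain ⟨w, hw⟩ := hp (v, 0)
    exact ⟨⟨w, by simp [hW, p2, hw]⟩, by simp [p1, hw]⟩
  have hp2 : Function.Surjective p2 := by
    intro v
    obtain ⟨w, hw⟩ := hp (0, v)
    exact ⟨w, by simp [p2, hw]⟩
  have hWlarge : Large W := by
    constructor
    · exact le_antisymm (Submodule.rank_le _) (LinearMap.rank_le_of_surjective _ hp1)
    · exact (p2.quotKerEquivOfSurjective hp2).rank_eq
  have key : ∀ g : M →ₗ[F] V, Function.Injective g → (∀ m, g m ∈ W) → (∀ m, p1 (g m) = 0) →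
      ∃ e : (M × V) ≃ₗ[F] W, ∀ m, ((e (m, 0) : W) : V) = g m := by
    intro g hg hgW hgk
    let gW : M →ₗ[F] W := LinearMap.codRestrict W g hgW
    have hgW' : Function.Injective gW := fun a b hab => hg (congrArg Subtype.val hab)
    have hle : LinearMap.range gW ≤ LinearMap.ker (p1 ∘ₗ W.subtype) := by
      rintro _ ⟨m, rfl⟩
      simp [gW, hgk]
    have hr : Module.rank F (W ⧸ LinearMap.range gW) = Module.rank F V := by
      apply le_antisymm
      · exact (rank_quotient_le _).trans (Submodule.rank_le _)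
      · apply LinearMap.rank_le_of_surjective ((LinearMap.range gW).liftQ _ hle)
        intro v
        obtain ⟨w, hw⟩ := hp1 v
        exact ⟨Submodule.Quotient.mk w, by simpa using hw⟩
    obtain ⟨e, he⟩ := exists_split (C := V) gW hgW' hr
    exact ⟨e, fun m => by rw [he]; rfl⟩
  obtain ⟨e, he⟩ := key f hf hfW hfk
  obtain ⟨e', he'⟩ := key f' hf' hf'W hf'k
  obtain ⟨h, hh, hu⟩ := hH W hWlarge (e.symm.trans e')
  refine ⟨h, hh, fun m => ?_⟩
  have := hu (e (m, 0))
  rw [he] at this
  rw [this]
  simp [he']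

/-- general homogeneity lemma -/
theorem move {H : Subgroup (LinearMap.GeneralLinearGroup F V)} (hH : Star H)
    (hV : ℵ₀ ≤ Module.rank F V)
    (hM : Module.rank F M = Module.rank F V) (f f' : M →ₗ[F] V)
    (hf : Function.Injective f) (hf' : Function.Injective f')
    (hcf : Module.rank F (V ⧸ LinearMap.range f) = Module.rank F V)
    (hcf' : Module.rank F (V ⧸ LinearMap.range f') = Module.rank F V) :
    ∃ h ∈ H, ∀ m, (h : V →ₗ[F] V) (f m) = f' m := by
  -- it suffices to find an intermediate map
  suffices hs : ∃ f'' : M →ₗ[F] V, Function.Injective f'' ∧ LinearMap.range f'' ≤ LinearMap.range f ∧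
      Module.rank F (V ⧸ (LinearMap.range f'' ⊔ LinearMap.range f')) = Module.rank F V by
    obtain ⟨f'', hf'', hle, hr⟩ := hs
    obtain ⟨h1, hh1, h1e⟩ := move_good hH hV hM f f'' hf hf'' (by rw [sup_eq_left.2 hle, hcf])
    obtain ⟨h2, hh2, h2e⟩ := move_good hH hV hM f'' f' hf'' hf' hr
    exact ⟨h2 * h1, H.mul_mem hh2 hh1, fun m => by simp [h1e, h2e]⟩
  set U := LinearMap.range f with hU
  set U' := LinearMap.range f' with hU'
  by_cases hcase : Module.rank F (U ⊓ U' : Submodule F V) = Module.rank F V
  · -- the intersection is large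
    have e : M ≃ₗ[F] (U ⊓ U' : Submodule F V) := LinearEquiv.ofRankEq _ _ (by rw [hM, hcase])
    refine ⟨(U ⊓ U').subtype ∘ₗ e.toLinearMap, ?_, ?_, ?_⟩
    · exact (Submodule.subtype_injective _).comp e.injective
    · rintro _ ⟨m, rfl⟩
      exact (e m).2.1
    · have : LinearMap.range ((U ⊓ U').subtype ∘ₗ e.toLinearMap) ⊔ U' = U' := by
        rw [sup_eq_right]
        rintro _ ⟨m, rfl⟩
        exact (e m).2.2
      rw [this, hcf']
  · -- a complement of the intersection in `U` is large
    obtain ⟨X, hX⟩ := (Submodule.comap U.subtype U').exists_isCompl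
    have hUr : Module.rank F U = Module.rank F V := by
      rw [← hM, hU]; exact (LinearEquiv.ofInjective f hf).rank_eq.symm
    have hlt : Module.rank F (Submodule.comap U.subtype U') < Module.rank F V := by
      refine lt_of_le_of_ne ((Submodule.rank_le _).trans (Submodule.rank_le _)) ?_
      intro h
      apply hcase
      rw [← h]
      have : Submodule.map U.subtype (Submodule.comap U.subtype U') = U ⊓ U' := by
        rw [Submodule.map_comap_subtype]
      rw [← this]
      exact (LinearEquiv.rank_eq (Submodule.equivMapOfInjective U.subtype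
        (Submodule.subtype_injective _) _)).symm
    have hXr : Module.rank F X = Module.rank F V := by
      have h1 := (Submodule.prodEquivOfIsCompl _ _ hX).rank_eq
      rw [rank_prod', hUr] at h1
      refine le_antisymm ((Submodule.rank_le _).trans (Submodule.rank_le _)) ?_
      by_contra h2
      push_neg at h2
      have := Cardinal.add_lt_of_lt hV hlt h2
      rw [h1] at this
      exact lt_irrefl _ this
    have e2 : Nonempty ((M × V) ≃ₗ[F] X) := by
      apply nonempty_linearEquiv_of_rank_eq
      rw [hXr, rank_prod_eq hV hM rfl]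
    obtain ⟨e2⟩ := e2
    let j : X →ₗ[F] V := U.subtype ∘ₗ X.subtype
    have hj : Function.Injective j := (Submodule.subtype_injective _).comp (Submodule.subtype_injective _)
    have hjU : ∀ x, j x ∈ U' → x = 0 := by
      intro x hx
      have h1 : (x : U) ∈ Submodule.comap U.subtype U' ⊓ X := ⟨hx, x.2⟩
      rw [hX.inf_eq_bot] at h1
      simpa using h1
    refine ⟨j ∘ₗ e2.toLinearMap ∘ₗ LinearMap.inl F M V, ?_, ?_, ?_⟩
    · exact hj.comp (e2.injective.comp LinearMap.inl_injective)
    · rintro _ ⟨m, rfl⟩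
      exact (e2 (m, 0) : X).1.2
    · apply le_antisymm (rank_quotient_le _)
      apply LinearMap.rank_le_of_injective
        (Submodule.mkQ _ ∘ₗ j ∘ₗ e2.toLinearMap ∘ₗ LinearMap.inr F M V)
      rw [← LinearMap.ker_eq_bot, Submodule.eq_bot_iff]
      intro v hv
      simp only [LinearMap.mem_ker, LinearMap.comp_apply, Submodule.mkQ_apply,
        Submodule.Quotient.mk_eq_zero, Submodule.mem_sup] at hv
      obtain ⟨y, ⟨m, rfl⟩, z, hz, hyz⟩ := hv
      have h3 : j (e2 (-m, v)) ∈ U' := by
        have : j (e2 (-m, v)) = z := by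
          have h4 : ((-m, v) : M × V) = (0, v) - (m, 0) := by simp
          rw [h4, map_sub, map_sub]
          simp only [LinearMap.comp_apply, LinearEquiv.coe_coe, LinearMap.inl_apply, LinearMap.inr_apply] at hyz
          rw [← hyz]; abel
        rw [this]; exact hz
      have h5 := hjU _ h3
      have h6 : ((-m, v) : M × V) = 0 := by
        rw [← e2.map_eq_zero_iff]; exact h5
      exact (Prod.ext_iff.1 h6).2

end Pool.Agent.H61.GLU
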