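import Mathlib

open Cardinal

universe u

namespace Pool.Agent.H61.GLU

/-- A general transfinite construction: meeting at most `μ` requirements by adding finitely many
elements at each step, while preserving a property stable under unions of chains. -/
theorem chain_lemma {X I : Type u} (μ : Cardinal.{u}) (hμ : ℵ₀ ≤ μ) (hI : #I ≤ μ)
    (P : Set X → Prop) (h0 : P ∅)
    (hU : ∀ 𝒞 : Set (Set X), 𝒞.Nonempty → IsChain (· ⊆ ·) 𝒞 → (∀ S ∈ 𝒞, P S) → P (⋃₀ 𝒞))
    (R : I → Set X → Prop) (hR : ∀ i S T, S ⊆ T → R i S → R i T)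
    (step : ∀ i S, P S → #S < μ → ∃ E : Set X, E.Finite ∧ P (S ∪ E) ∧ R i (S ∪ E)) :
    ∃ S, P S ∧ ∀ i, R i S := by
  classical
  obtain ⟨lo, wf, hord⟩ := Cardinal.exists_ord_eq_type_lt I
  -- the step function
  let F : (i : I) → ((j : I) → j < i → Set X) → Set X := fun i f =>
    if h : P (⋃ j, ⋃ (hj : j < i), f j hj) ∧ #(⋃ j, ⋃ (hj : j < i), f j hj : Set X) < μ then
      (step i _ h.1 h.2).choose else ∅
  let E : I → Set X := wf.wf.fix F
  have hE : ∀ i, E i = F i (fun j _ => E j) := fun i => wf.wf.fix_eq F i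
  let S : I → Set X := fun i => ⋃ j, ⋃ (_ : j < i), E j
  have hE' : ∀ i, E i = if h : P (S i) ∧ #(S i) < μ then (step i _ h.1 h.2).choose else ∅ :=
    fun i => hE i
  have hfin : ∀ i, (E i).Finite := by
    intro i
    rw [hE']
    split_ifs with h
    · exact (step i _ h.1 h.2).choose_spec.1
    · exact Set.finite_empty
  have hcard : ∀ i, #(S i) < μ := by
    intro i
    have h1 : S i = ⋃ j : Set.Iio i, E j := by
      ext x; simp [S]
    rw [h1]
    have hlt : #(Set.Iio i) < μ := (Cardinal.mk_Iio_lt i hord).trans_le hI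
    rcases lt_or_ge #(Set.Iio i) ℵ₀ with h | h
    · have : Finite (Set.Iio i) := Cardinal.lt_aleph0_iff_finite.1 h
      refine lt_of_lt_of_le ?_ hμ
      rw [Cardinal.lt_aleph0_iff_set_finite]
      exact Set.finite_iUnion (fun j => hfin j)
    · refine lt_of_le_of_lt (Cardinal.mk_iUnion_le _) ?_
      refine lt_of_le_of_lt (mul_le_mul_right (a := #(Set.Iio i)) (ciSup_le' (a := ℵ₀) ?_)) ?_
      · intro j
        exact (Cardinal.lt_aleph0_iff_set_finite.2 (hfin j)).le
      · rw [Cardinal.mul_aleph0_eq h]; exact hlt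
  have hspec : ∀ i, P (S i) → P (S i ∪ E i) ∧ R i (S i ∪ E i) := by
    intro i hi
    have h1 := hE' i
    rw [dif_pos ⟨hi, hcard i⟩] at h1
    rw [h1]
    exact (step i _ hi (hcard i)).choose_spec.2
  -- unions along an initial segment
  have huni : ∀ J : Set I, (∀ i ∈ J, ∀ j, j < i → j ∈ J) → (∀ i ∈ J, P (S i)) →
      P (⋃ j ∈ J, E j) := by
    intro J hJ hP
    rcases J.eq_empty_or_nonempty with rfl | hne
    · simpa using h0
    · have h2 : (⋃ j ∈ J, E j) = ⋃₀ ((fun j => S j ∪ E j) '' J) := by
        apply Set.Subset.antisymm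
        · intro x hx
          simp only [Set.mem_iUnion] at hx
          obtain ⟨j, hj, hx⟩ := hx
          exact ⟨S j ∪ E j, ⟨j, hj, rfl⟩, Or.inr hx⟩
        · rintro x ⟨_, ⟨j, hj, rfl⟩, hx⟩
          rcases hx with hx | hx
          · simp only [S, Set.mem_iUnion] at hx
            obtain ⟨k, hk, hx⟩ := hx
            simp only [Set.mem_iUnion]
            exact ⟨k, hJ j hj k hk, hx⟩
          · simp only [Set.mem_iUnion]
            exact ⟨j, hj, hx⟩
      rw [h2]
      apply hU
      · exact hne.image _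
      · have hmono : ∀ i j, i < j → S i ∪ E i ⊆ S j ∪ E j := by
          intro i j hij x hx
          left
          simp only [S, Set.mem_iUnion]
          rcases hx with hx | hx
          · simp only [S, Set.mem_iUnion] at hx
            obtain ⟨k, hk, hx⟩ := hx
            exact ⟨k, hk.trans hij, hx⟩
          · exact ⟨i, hij, hx⟩
        rintro _ ⟨i, _, rfl⟩ _ ⟨j, _, rfl⟩ _
        rcases lt_trichotomy i j with h | h | h
        · exact Or.inl (hmono i j h)
        · subst h; exact Or.inl (le_refl _)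
        · exact Or.inr (hmono j i h)
      · rintro _ ⟨i, hi, rfl⟩
        exact (hspec i (hP i hi)).1
  have hP : ∀ i, P (S i) := by
    intro i
    induction i using wf.wf.induction with
    | _ i ih =>
      have h3 : S i = ⋃ j ∈ Set.Iio i, E j := by
        ext x; simp [S]
      rw [h3]
      apply huni
      · intro j hj k hk
        exact lt_trans hk hj
      · intro j hj
        exact ih j hj
  refine ⟨⋃ j ∈ (Set.univ : Set I), E j, huni _ (fun _ _ _ _ => trivial) (fun i _ => hP i), ?_⟩
  intro i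
  refine hR i (S i ∪ E i) _ ?_ (hspec i (hP i)).2
  rintro x (hx | hx)
  · simp only [S, Set.mem_iUnion] at hx ⊢
    obtain ⟨k, _, hx⟩ := hx
    exact ⟨k, trivial, hx⟩
  · simp only [Set.mem_iUnion]
    exact ⟨i, trivial, hx⟩

end Pool.Agent.H61.GLU
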