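import Pool.Agent.H61.GLU.Words
import Pool.Agent.H61.GLU.Chain

open Cardinal Module

universe u

namespace Pool.Agent.H61.GLU

theorem card_closure {G : Type u} [Group G] (S : Set G) (κ : Cardinal.{u}) (hκ : ℵ₀ ≤ κ)
    (hS : #S ≤ κ) : #(Subgroup.closure S) ≤ κ := by
  set T : Set G := insert 1 S with hT
  have hTc : #T ≤ κ := by
    refine (Cardinal.mk_insert_le).trans ?_
    exact Cardinal.add_le_of_le hκ hS (Cardinal.one_le_aleph0.trans hκ)
  have : Nonempty T := ⟨⟨1, Set.mem_insert _ _⟩⟩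
  have h1 : Subgroup.closure S ≤ (FreeGroup.lift ((↑) : T → G)).range := by
    rw [← FreeGroup.closure_eq_range]
    exact Subgroup.closure_mono (Set.subset_insert _ _)
  calc #(Subgroup.closure S) ≤ #((FreeGroup.lift ((↑) : T → G)).range) :=
        Cardinal.mk_le_mk_of_subset h1
    _ ≤ #(FreeGroup T) := Cardinal.mk_range_le
    _ = max #T ℵ₀ := Cardinal.mk_freeGroup _
    _ ≤ κ := max_le hTc hκ

variable {F : Type u} [Field F]
variable {V : Type u} [AddCommGroup V] [Module F V]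

theorem card_space (hV : ℵ₀ ≤ Module.rank F V) (hF : #F ≤ Module.rank F V) :
    #V ≤ Module.rank F V := by
  let b := Module.Free.chooseBasis F V
  have h1 : #(Module.Free.ChooseBasisIndex F V) = Module.rank F V := b.mk_eq_rank''
  have : Infinite (Module.Free.ChooseBasisIndex F V) := by
    rw [Cardinal.infinite_iff, h1]; exact hV
  rw [Cardinal.mk_congr b.repr.toEquiv, Cardinal.mk_finsupp_of_infinite, h1]
  exact max_le le_rfl hF

/-- the graph of an automorphism of `U` -/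
def gr (U : Submodule F V) (g : U ≃ₗ[F] U) : Submodule F (V × V) :=
  LinearMap.range (U.subtype.prod (U.subtype ∘ₗ g.toLinearMap))

theorem mem_gr {U : Submodule F V} {g : U ≃ₗ[F] U} {p : V × V} :
    p ∈ gr U g ↔ ∃ u : U, ((u : V), (g u : V)) = p := Iff.rfl

theorem gr_PI (U : Submodule F V) (g : U ≃ₗ[F] U) : PI (gr U g) := by
  rintro _ ⟨u, rfl⟩
  simp only [LinearMap.prod_apply, Function.prod, Submodule.subtype_apply, LinearMap.comp_apply,
    LinearEquiv.coe_coe]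
  rw [ZeroMemClass.coe_eq_zero, ZeroMemClass.coe_eq_zero, LinearEquiv.map_eq_zero_iff]

theorem gr_dom (U : Submodule F V) (g : U ≃ₗ[F] U) : dom (gr U g) = U := by
  ext x
  constructor
  · rintro ⟨_, ⟨u, rfl⟩, rfl⟩
    exact u.2
  · intro hx
    exact ⟨_, ⟨⟨x, hx⟩, rfl⟩, rfl⟩

theorem gr_ran (U : Submodule F V) (g : U ≃ₗ[F] U) : ran (gr U g) = U := by
  ext x
  constructor
  · rintro ⟨_, ⟨u, rfl⟩, rfl⟩
    exact (g u).2
  · intro hx
    exact ⟨_, ⟨g.symm ⟨x, hx⟩, rfl⟩, by simp⟩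

theorem inf_of_small (hV : ℵ₀ ≤ Module.rank F V) {U : Submodule F V}
    (hU : Module.rank F (V ⧸ U) = Module.rank F V) {S : Set V} (hS : #S < Module.rank F V) :
    Inf (U ⊔ Submodule.span F S) := by
  by_contra hcon
  rw [Inf, not_le] at hcon
  have h1 := rank_quot_le_add U (Submodule.span F S)
  rw [hU] at h1
  have h2 : Module.rank F (Submodule.span F S) < Module.rank F V :=
    lt_of_le_of_lt (rank_span_le S) hS
  exact absurd h1 (not_le.2 (Cardinal.add_lt_of_lt hV (hcon.trans_le hV) h2))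

/-- directedness for chains -/
theorem mem_of_chain {W : Type u} [AddCommGroup W] [Module F W] (Γ₀ : Submodule F W)
    (𝒞 : Set (Set W)) (hne : 𝒞.Nonempty) (hc : IsChain (· ⊆ ·) 𝒞) {p : W}
    (hp : p ∈ Γ₀ ⊔ Submodule.span F (⋃₀ 𝒞)) : ∃ S ∈ 𝒞, p ∈ Γ₀ ⊔ Submodule.span F S := by
  obtain ⟨g, hg, s, hs, rfl⟩ := Submodule.mem_sup.1 hp
  have key : ∃ S ∈ 𝒞, s ∈ Submodule.span F S := by
    induction hs using Submodule.span_induction with
    | mem x hx =>
      obtain ⟨S, hS, hx⟩ := hx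
      exact ⟨S, hS, Submodule.subset_span hx⟩
    | zero =>
      obtain ⟨S, hS⟩ := hne
      exact ⟨S, hS, Submodule.zero_mem _⟩
    | add x y _ _ hx hy =>
      have hx' := hx
      obtain ⟨S, hS, hx⟩ := hx (Submodule.mem_sup.2 ⟨g, hg, x, by assumption, rfl⟩)
      obtain ⟨T, hT, hy⟩ := hy (Submodule.mem_sup.2 ⟨g, hg, y, by assumption, rfl⟩)
      rcases hc.total hS hT with h | h
      · exact ⟨T, hT, Submodule.add_mem _ (Submodule.span_mono h hx) hy⟩
      · exact ⟨S, hS, Submodule.add_mem _ hx (Submodule.span_mono h hy)⟩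
    | smul c x _ hx =>
      obtain ⟨S, hS, hx⟩ := hx (Submodule.mem_sup.2 ⟨g, hg, x, by assumption, rfl⟩)
      exact ⟨S, hS, Submodule.smul_mem _ _ hx⟩
  obtain ⟨S, hS, h⟩ := key
  exact ⟨S, hS, Submodule.add_mem_sup hg h⟩

theorem closure_mem_of_chain {G : Type u} [Group G] (𝒞 : Set (Set G)) (hne : 𝒞.Nonempty)
    (hc : IsChain (· ⊆ ·) 𝒞) {x : G} (hx : x ∈ Subgroup.closure (⋃₀ 𝒞)) :
    ∃ S ∈ 𝒞, x ∈ Subgroup.closure S := by
  induction hx using Subgroup.closure_induction with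
  | mem x hx =>
    obtain ⟨S, hS, hx⟩ := hx
    exact ⟨S, hS, Subgroup.subset_closure hx⟩
  | one =>
    obtain ⟨S, hS⟩ := hne
    exact ⟨S, hS, Subgroup.one_mem _⟩
  | mul x y _ _ hx hy =>
    obtain ⟨S, hS, hx⟩ := hx
    obtain ⟨T, hT, hy⟩ := hy
    rcases hc.total hS hT with h | h
    · exact ⟨T, hT, Subgroup.mul_mem _ (Subgroup.closure_mono h hx) hy⟩
    · exact ⟨S, hS, Subgroup.mul_mem _ hx (Subgroup.closure_mono h hy)⟩
  | inv x _ hx =>
    obtain ⟨S, hS, hx⟩ := hx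
    exact ⟨S, hS, Subgroup.inv_mem _ hx⟩

end Pool.Agent.H61.GLU
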