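import Pool.Agent.H61.GLU.Counter

open Cardinal Module

universe u

namespace Pool.Agent.H61.GLU

variable {F : Type u} [Field F]
variable {V : Type u} [AddCommGroup V] [Module F V]

/-- From a relation which is total, surjective and injective, get an automorphism. -/
theorem exists_of_graph (Γ : Submodule F (V × V)) (hPI : PI Γ) (h1 : ∀ v, ∃ w, (v, w) ∈ Γ)
    (h2 : ∀ v, ∃ w, (w, v) ∈ Γ) :
    ∃ h : LinearMap.GeneralLinearGroup F V, ∀ p ∈ Γ, p.2 = (h : V →ₗ[F] V) p.1 := by
  let f1 : Γ →ₗ[F] V := LinearMap.fst F V V ∘ₗ Γ.subtype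
  let f2 : Γ →ₗ[F] V := LinearMap.snd F V V ∘ₗ Γ.subtype
  have b1 : Function.Bijective f1 := by
    constructor
    · rw [← LinearMap.ker_eq_bot, Submodule.eq_bot_iff]
      rintro ⟨p, hp⟩ hx
      have h3 : p.1 = 0 := hx
      have h4 : p.2 = 0 := (hPI p hp).1 h3
      ext
      · exact h3
      · exact h4
    · intro v
      obtain ⟨w, hw⟩ := h1 v
      exact ⟨⟨(v, w), hw⟩, rfl⟩
  have b2 : Function.Bijective f2 := by
    constructor
    · rw [← LinearMap.ker_eq_bot, Submodule.eq_bot_iff]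
      rintro ⟨p, hp⟩ hx
      have h3 : p.2 = 0 := hx
      have h4 : p.1 = 0 := (hPI p hp).2 h3
      ext
      · exact h4
      · exact h3
    · intro v
      obtain ⟨w, hw⟩ := h2 v
      exact ⟨⟨(w, v), hw⟩, rfl⟩
  let e1 := LinearEquiv.ofBijective f1 b1
  let e2 := LinearEquiv.ofBijective f2 b2
  refine ⟨LinearMap.GeneralLinearGroup.ofLinearEquiv (e1.symm.trans e2), fun p hp => ?_⟩
  have h3 : e1.symm p.1 = ⟨p, hp⟩ := by
    rw [LinearEquiv.symm_apply_eq]; rfl
  have h4 : ((LinearMap.GeneralLinearGroup.ofLinearEquiv (e1.symm.trans e2) :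
    LinearMap.GeneralLinearGroup F V) : V →ₗ[F] V) p.1 = e2 (e1.symm p.1) := rfl
  rw [h4, h3]
  rfl

/-- the requirements -/
def Req (K : Subgroup (LinearMap.GeneralLinearGroup F V)) : Type u :=
  V ⊕ V ⊕ (List (K × Bool) × F × V)

theorem card_req (hV : ℵ₀ ≤ Module.rank F V) (hF : #F ≤ Module.rank F V)
    (K : Subgroup (LinearMap.GeneralLinearGroup F V)) (hK : #K ≤ Module.rank F V) :
    #(Req K) ≤ Module.rank F V := by
  have hVc := card_space hV hF
  have hb : #(K × Bool) ≤ Module.rank F V := by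
    rw [Cardinal.mk_prod]
    simp only [Cardinal.lift_uzero, Cardinal.mk_bool]
    refine Cardinal.mul_le_of_le hV hK ?_
    rw [Cardinal.lift_ofNat]
    exact (Cardinal.natCast_lt_aleph0 (n := 2)).le.trans hV
  have hl : #(List (K × Bool)) ≤ Module.rank F V :=
    (Cardinal.mk_list_le_max _).trans (max_le hV hb)
  unfold Req
  simp only [Cardinal.mk_sum, Cardinal.mk_prod, Cardinal.lift_id]
  exact Cardinal.add_le_of_le hV hVc (Cardinal.add_le_of_le hV hVc
    (Cardinal.mul_le_of_le hV hl (Cardinal.mul_le_of_le hV hF hVc)))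

/-- the underlying word -/
def und (K : Subgroup (LinearMap.GeneralLinearGroup F V)) (L : List (K × Bool)) :
    List (LinearMap.GeneralLinearGroup F V × Bool) :=
  L.map (fun q => ((q.1 : LinearMap.GeneralLinearGroup F V), q.2))

theorem exists_und (K : Subgroup (LinearMap.GeneralLinearGroup F V)) :
    ∀ L : List (LinearMap.GeneralLinearGroup F V × Bool), (∀ q ∈ L, q.1 ∈ K) →
      ∃ L' : List (K × Bool), und K L' = L
  | [], _ => ⟨[], rfl⟩
  | q :: L, h => by
    obtain ⟨L', hL'⟩ := exists_und K L (fun r hr => h r (List.mem_cons_of_mem _ hr))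
    refine ⟨(⟨q.1, h q (by simp)⟩, q.2) :: L', ?_⟩
    change q :: und K L' = q :: L
    rw [hL']

theorem und_mem (K : Subgroup (LinearMap.GeneralLinearGroup F V)) (L : List (K × Bool)) :
    ∀ q ∈ und K L, q.1 ∈ K := by
  intro q hq
  obtain ⟨r, _, rfl⟩ := List.mem_map.1 hq
  exact r.1.2

/-- cyclically reduced words -/
def CycRed (L : List (LinearMap.GeneralLinearGroup F V × Bool)) : Prop :=
  ∃ p L', L = p :: L' ∧ Red (p :: L') ∧ (p.2 ≠ ((p :: L').getLast (List.cons_ne_nil _ _)).2 →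
        ((p :: L').getLast (List.cons_ne_nil _ _)).1 ≠ 1)

/-- the requirement predicate -/
def ReqHolds (K : Subgroup (LinearMap.GeneralLinearGroup F V)) (Γ : Submodule F (V × V)) :
    Req K → Prop
  | Sum.inl v => ∃ w, (v, w) ∈ Γ
  | Sum.inr (Sum.inl v) => ∃ w, (w, v) ∈ Γ
  | Sum.inr (Sum.inr (L, a, v)) => a ≠ 0 → CycRed (und K L) → ∃ y, Path Γ (und K L) y (a • y + v)

theorem ReqHolds.mono {K : Subgroup (LinearMap.GeneralLinearGroup F V)}
    {Γ Γ' : Submodule F (V × V)} (h : Γ ≤ Γ') : ∀ {r : Req K}, ReqHolds K Γ r → ReqHolds K Γ' r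
  | Sum.inl _, ⟨w, hw⟩ => ⟨w, h hw⟩
  | Sum.inr (Sum.inl _), ⟨w, hw⟩ => ⟨w, h hw⟩
  | Sum.inr (Sum.inr (_, _, _)), hr => fun ha hc =>
      let ⟨y, hy⟩ := hr ha hc
      ⟨y, hy.mono h⟩

theorem req_step (K : Subgroup (LinearMap.GeneralLinearGroup F V))
    (hK : ∀ k ∈ K, k ≠ 1 → SurjL k) (Γ : Submodule F (V × V)) (hΓ : PI Γ) (hd : Inf (dom Γ))
    (hr : Inf (ran Γ)) (r : Req K) :
    ∃ E : Set (V × V), E.Finite ∧ PI (Γ ⊔ Submodule.span F E) ∧
      ReqHolds K (Γ ⊔ Submodule.span F E) r := by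
  have htriv : PI (Γ ⊔ Submodule.span F (∅ : Set (V × V))) := by
    rw [Submodule.span_empty, sup_bot_eq]; exact hΓ
  match r with
  | Sum.inl v =>
    by_cases hv : v ∈ dom Γ
    · obtain ⟨p, hp, rfl⟩ := hv
      exact ⟨∅, Set.finite_empty, htriv, p.2, Submodule.mem_sup_left hp⟩
    · obtain ⟨w, hw⟩ := hr.two.exists_notMem
      exact ⟨{(v, w)}, Set.finite_singleton _, hΓ.add hv hw, w,
        Submodule.mem_sup_right (Submodule.mem_span_singleton_self _)⟩
  | Sum.inr (Sum.inl v) =>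
    by_cases hv : v ∈ ran Γ
    · obtain ⟨p, hp, rfl⟩ := hv
      exact ⟨∅, Set.finite_empty, htriv, p.1, Submodule.mem_sup_left hp⟩
    · obtain ⟨w, hw⟩ := hd.two.exists_notMem
      exact ⟨{(w, v)}, Set.finite_singleton _, hΓ.add hw hv, w,
        Submodule.mem_sup_right (Submodule.mem_span_singleton_self _)⟩
  | Sum.inr (Sum.inr (L, a, v)) =>
    by_cases hc : a ≠ 0 ∧ CycRed (und K L)
    · obtain ⟨ha, p, L', hL, hRed, hcyc⟩ := hc
      have hm : ∀ q ∈ p :: L', q.1 ∈ K := by
        rw [← hL]; exact und_mem K L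
      obtain ⟨E, hE, hPE, y, hy⟩ := cyc_step p L' Γ hΓ hd hr
        (fun q hq hq1 => hK q.1 (hm q hq) hq1) hRed hcyc a ha v
      refine ⟨E, hE, hPE, fun _ _ => ⟨y, ?_⟩⟩
      rw [hL]; exact hy
    · refine ⟨∅, Set.finite_empty, htriv, fun ha hcr => absurd ⟨ha, hcr⟩ hc⟩

/-- **Extension lemma.** -/
theorem extend_one (hV : ℵ₀ ≤ Module.rank F V) (hF : #F ≤ Module.rank F V)
    (K : Subgroup (LinearMap.GeneralLinearGroup F V)) (hKc : #K ≤ Module.rank F V)
    (hK : ∀ k ∈ K, k ≠ 1 → SurjL k) (U : Submodule F V)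
    (hU : Module.rank F (V ⧸ U) = Module.rank F V) (g : U ≃ₗ[F] U) :
    ∃ h : LinearMap.GeneralLinearGroup F V, (∀ p ∈ gr U g, p.2 = (h : V →ₗ[F] V) p.1) ∧
      ∀ x ∈ Subgroup.closure ((K : Set (LinearMap.GeneralLinearGroup F V)) ∪ {h}),
        x ≠ 1 → SurjL x := by
  obtain ⟨S, hS, hR⟩ := chain_lemma (X := V × V) (I := Req K) (Module.rank F V) hV
    (card_req hV hF K hKc) (fun S => PI (gr U g ⊔ Submodule.span F S))
    (by
      change PI (gr U g ⊔ Submodule.span F (∅ : Set (V × V)))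
      rw [Submodule.span_empty, sup_bot_eq]; exact gr_PI U g)
    (by
      intro 𝒞 hne hc hP p hp
      obtain ⟨S, hS, hp⟩ := mem_of_chain _ 𝒞 hne hc hp
      exact hP S hS p hp)
    (fun r S => ReqHolds K (gr U g ⊔ Submodule.span F S) r)
    (by
      intro r S T hST h
      exact h.mono (sup_le_sup le_rfl (Submodule.span_mono hST)))
    (by
      intro r S hP hSc
      have hd : Inf (dom (gr U g ⊔ Submodule.span F S)) := by
        rw [dom_sup_span, gr_dom]
        exact inf_of_small hV hU (Cardinal.mk_image_le.trans_lt hSc)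
      have hr : Inf (ran (gr U g ⊔ Submodule.span F S)) := by
        rw [ran_sup_span, gr_ran]
        exact inf_of_small hV hU (Cardinal.mk_image_le.trans_lt hSc)
      obtain ⟨E, hE, hPE, hRE⟩ := req_step K hK _ hP hd hr r
      refine ⟨E, hE, ?_, ?_⟩
      · rw [Submodule.span_union, ← sup_assoc]; exact hPE
      · rw [Submodule.span_union, ← sup_assoc]; exact hRE)
  obtain ⟨h, hh⟩ := exists_of_graph _ hS (fun v => hR (Sum.inl v)) (fun v => hR (Sum.inr (Sum.inl v)))
  refine ⟨h, fun p hp => hh p (Submodule.mem_sup_left hp), ?_⟩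
  apply closure_surj K hK h
  intro p L hm hRed hcyc a ha v
  obtain ⟨L', hL'⟩ := exists_und K (p :: L) hm
  obtain ⟨y, hy⟩ := hR (Sum.inr (Sum.inr (L', a, v))) ha ⟨p, L, hL', hRed, hcyc⟩
  rw [hL'] at hy
  exact ⟨y, (path_graph h _ hh _ _ _ hy).symm⟩

/-- **Counterexample theorem.** -/
theorem counter (hV : ℵ₀ ≤ Module.rank F V) (hF : #F ≤ Module.rank F V)
    (hGCH : (2 : Cardinal.{u}) ^ Module.rank F V = Order.succ (Module.rank F V)) :
    ∃ H : Subgroup (LinearMap.GeneralLinearGroup F V), H ≠ ⊤ ∧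
      (∀ x ∈ H, x ≠ 1 → SurjL x) ∧
      ∀ U : Submodule F V, Module.rank F (V ⧸ U) = Module.rank F V →
        ∀ g : U ≃ₗ[F] U, ∃ h ∈ H, ∀ u : U, (h : V →ₗ[F] V) u = g u := by
  have hVc := card_space hV hF
  obtain ⟨S, hS, hR⟩ := chain_lemma (X := LinearMap.GeneralLinearGroup F V) (I := Set (V × V))
    (Order.succ (Module.rank F V)) (hV.trans (Order.le_succ _))
    (by
      rw [Cardinal.mk_set, ← hGCH]
      apply Cardinal.power_le_power_left two_ne_zero
      rw [Cardinal.mk_prod, Cardinal.lift_id]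
      exact Cardinal.mul_le_of_le hV hVc hVc)
    (fun S => ∀ x ∈ Subgroup.closure S, x ≠ 1 → SurjL x)
    (by
      intro x hx hx1
      rw [Subgroup.closure_empty] at hx
      exact absurd hx hx1)
    (by
      intro 𝒞 hne hc hP x hx hx1
      obtain ⟨S, hS, hx⟩ := closure_mem_of_chain 𝒞 hne hc hx
      exact hP S hS x hx hx1)
    (fun A S => (∃ (U : Submodule F V) (g : U ≃ₗ[F] U),
      Module.rank F (V ⧸ U) = Module.rank F V ∧ (gr U g : Set (V × V)) = A) →
        ∃ h ∈ S, ∀ p ∈ A, p.2 = (h : V →ₗ[F] V) p.1)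
    (by
      intro A S T hST h hA
      obtain ⟨k, hk, hk'⟩ := h hA
      exact ⟨k, hST hk, hk'⟩)
    (by
      intro A S hP hSc
      by_cases hA : ∃ (U : Submodule F V) (g : U ≃ₗ[F] U),
        Module.rank F (V ⧸ U) = Module.rank F V ∧ (gr U g : Set (V × V)) = A
      · obtain ⟨U, g, hU, rfl⟩ := hA
        obtain ⟨h, hh, hcl⟩ := extend_one hV hF (Subgroup.closure S)
          (card_closure S _ hV (Order.lt_succ_iff.1 hSc)) hP U hU g
        refine ⟨{h}, Set.finite_singleton _, ?_, fun _ => ⟨h, Or.inr rfl, hh⟩⟩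
        intro x hx
        apply hcl
        refine Subgroup.closure_mono ?_ hx
        exact Set.union_subset_union_left _ Subgroup.subset_closure
      · refine ⟨∅, Set.finite_empty, ?_, fun h => absurd h hA⟩
        rw [Set.union_empty]; exact hP)
  refine ⟨Subgroup.closure S, ?_, hS, ?_⟩
  · intro htop
    obtain ⟨e⟩ := exists_double (M := V) (M' := V) (V := V) hV rfl rfl
    -- a transvection
    let t : (V × V) ≃ₗ[F] (V × V) :=
      { toFun := fun p => (p.1 + p.2, p.2)
        invFun := fun p => (p.1 - p.2, p.2)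
        map_add' := by intro p q; ext <;> simp [add_add_add_comm]
        map_smul' := by intro c p; ext <;> simp
        left_inv := by intro p; simp
        right_inv := by intro p; simp }
    let k : LinearMap.GeneralLinearGroup F V :=
      LinearMap.GeneralLinearGroup.ofLinearEquiv ((e.symm.trans t).trans e)
    have hk : ∀ p, (k : V →ₗ[F] V) (e p) = e (p.1 + p.2, p.2) := by
      intro p
      have : (k : V →ₗ[F] V) (e p) = e (t (e.symm (e p))) := rfl
      rw [this, LinearEquiv.symm_apply_apply]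
      rfl
    have hVne : Nontrivial V := rank_pos_iff_nontrivial.1 (Cardinal.aleph0_pos.trans_le hV)
    obtain ⟨x, hx⟩ := exists_ne (0 : V)
    have hk1 : k ≠ 1 := by
      intro h
      have h1 := hk (0, x)
      rw [h] at h1
      have h2 := e.injective h1
      simp only [Prod.mk.injEq] at h2
      rw [zero_add] at h2
      exact hx h2.1.symm
    have hkH : k ∈ Subgroup.closure S := by rw [htop]; trivial
    obtain ⟨w, hw⟩ := hS k hkH hk1 1 one_ne_zero (e (0, x))
    obtain ⟨p, rfl⟩ := e.surjective w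
    rw [hk, one_smul, ← map_add] at hw
    have h2 := congrArg Prod.snd (e.injective hw)
    simp at h2
    exact hx h2
  · intro U hU g
    obtain ⟨h, hh, hh'⟩ := hR (gr U g : Set (V × V)) ⟨U, g, hU, rfl⟩
    exact ⟨h, Subgroup.subset_closure hh, fun u => (hh' _ ⟨u, rfl⟩).symm⟩

end Pool.Agent.H61.GLU
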