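import Pool.Agent.H61.GLU.Words

open Cardinal Module

universe u

namespace Pool.Agent.H61.GLU

variable {F : Type u} [Field F]
variable {V : Type u} [AddCommGroup V] [Module F V]

theorem exists_factor' {A B C : Type u} [AddCommGroup A] [Module F A] [AddCommGroup B] [Module F B]
    [AddCommGroup C] [Module F C] (δ : A →ₗ[F] B) (μ : A →ₗ[F] C)
    (h : ∀ v, δ v = 0 → μ v = 0) : ∃ ρ : B →ₗ[F] C, ∀ v, ρ (δ v) = μ v := by
  obtain ⟨s, hs⟩ := δ.rangeRestrict.exists_rightInverse_of_surjective (LinearMap.range_rangeRestrict δ)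
  obtain ⟨ρ, hρ⟩ := (μ ∘ₗ s).exists_extend
  refine ⟨ρ, fun v => ?_⟩
  have h1 : ρ (δ v) = μ (s (δ.rangeRestrict v)) := LinearMap.congr_fun hρ (δ.rangeRestrict v)
  rw [h1, ← sub_eq_zero, ← map_sub]
  apply h
  have h2 := LinearMap.congr_fun hs (δ.rangeRestrict v)
  have h3 : δ (s (δ.rangeRestrict v)) = δ v := congrArg Subtype.val h2
  rw [map_sub, h3, sub_self]

/-- a criterion for full codimension -/
theorem codim_of_surj' {M C : Type u} [AddCommGroup M] [Module F M] [AddCommGroup C] [Module F C]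
    (f : M →ₗ[F] V) (p : V →ₗ[F] C) (hp : Function.Surjective p) (hpf : ∀ m, p (f m) = 0)
    (hC : Module.rank F C = Module.rank F V) :
    Module.rank F (V ⧸ LinearMap.range f) = Module.rank F V := by
  apply le_antisymm (rank_quotient_le _)
  rw [← hC]
  have hle : LinearMap.range f ≤ LinearMap.ker p := by
    rintro _ ⟨m, rfl⟩; exact hpf m
  apply LinearMap.rank_le_of_surjective ((LinearMap.range f).liftQ p hle)
  intro c
  obtain ⟨v, hv⟩ := hp c
  exact ⟨Submodule.Quotient.mk v, by simpa using hv⟩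

/-- A subspace of dimension `κ` contains a subspace of dimension `κ` whose sum with a given subspace
of codimension `κ` still has codimension `κ`. -/
theorem exists_sub (hV : ℵ₀ ≤ Module.rank F V) (f : V →ₗ[F] V) (hf : Function.Injective f)
    (U' : Submodule F V) (hc : Module.rank F (V ⧸ U') = Module.rank F V) :
    ∃ f'' : V →ₗ[F] V, Function.Injective f'' ∧ LinearMap.range f'' ≤ LinearMap.range f ∧
      Module.rank F (V ⧸ (LinearMap.range f'' ⊔ U')) = Module.rank F V := by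
  set U := LinearMap.range f with hU
  by_cases hcase : Module.rank F (U ⊓ U' : Submodule F V) = Module.rank F V
  · have e : V ≃ₗ[F] (U ⊓ U' : Submodule F V) := LinearEquiv.ofRankEq _ _ (by rw [hcase])
    refine ⟨(U ⊓ U').subtype ∘ₗ e.toLinearMap, ?_, ?_, ?_⟩
    · exact (Submodule.subtype_injective _).comp e.injective
    · rintro _ ⟨m, rfl⟩
      exact (e m).2.1
    · have : LinearMap.range ((U ⊓ U').subtype ∘ₗ e.toLinearMap) ⊔ U' = U' := by
        rw [sup_eq_right]
        rintro _ ⟨m, rfl⟩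
        exact (e m).2.2
      rw [this, hc]
  · obtain ⟨X, hX⟩ := (Submodule.comap U.subtype U').exists_isCompl
    have hUr : Module.rank F U = Module.rank F V := by
      rw [hU]; exact (LinearEquiv.ofInjective f hf).rank_eq.symm
    have hlt : Module.rank F (Submodule.comap U.subtype U') < Module.rank F V := by
      refine lt_of_le_of_ne ((Submodule.rank_le _).trans (Submodule.rank_le _)) ?_
      intro h
      apply hcase
      rw [← h]
      have : Submodule.map U.subtype (Submodule.comap U.subtype U') = U ⊓ U' := by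
        rw [Submodule.map_comap_subtype]
      rw [← this]
      exact (LinearEquiv.rank_eq (Submodule.equivMapOfInjective U.subtype
        (Submodule.subtype_injective _) _)).symm
    have hXr : Module.rank F X = Module.rank F V := by
      have h1 := (Submodule.prodEquivOfIsCompl _ _ hX).rank_eq
      rw [rank_prod', hUr] at h1
      refine le_antisymm ((Submodule.rank_le _).trans (Submodule.rank_le _)) ?_
      by_contra h2
      push Not at h2
      have := Cardinal.add_lt_of_lt hV hlt h2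
      rw [h1] at this
      exact lt_irrefl _ this
    have e2 : Nonempty ((V × V) ≃ₗ[F] X) := by
      apply nonempty_linearEquiv_of_rank_eq
      rw [hXr, rank_prod_eq hV rfl rfl]
    obtain ⟨e2⟩ := e2
    let j : X →ₗ[F] V := U.subtype ∘ₗ X.subtype
    have hj : Function.Injective j := (Submodule.subtype_injective _).comp (Submodule.subtype_injective _)
    have hjU : ∀ x, j x ∈ U' → x = 0 := by
      intro x hx
      have h1 : (x : U) ∈ Submodule.comap U.subtype U' ⊓ X := ⟨hx, x.2⟩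
      rw [hX.inf_eq_bot] at h1
      simpa using h1
    refine ⟨j ∘ₗ e2.toLinearMap ∘ₗ LinearMap.inl F V V, ?_, ?_, ?_⟩
    · exact hj.comp (e2.injective.comp LinearMap.inl_injective)
    · rintro _ ⟨m, rfl⟩
      exact (e2 (m, 0) : X).1.2
    · apply le_antisymm (rank_quotient_le _)
      apply LinearMap.rank_le_of_injective
        (Submodule.mkQ _ ∘ₗ j ∘ₗ e2.toLinearMap ∘ₗ LinearMap.inr F V V)
      rw [← LinearMap.ker_eq_bot, Submodule.eq_bot_iff]
      intro v hv
      simp only [LinearMap.mem_ker, LinearMap.comp_apply, Submodule.mkQ_apply,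
        Submodule.Quotient.mk_eq_zero, Submodule.mem_sup] at hv
      obtain ⟨y, ⟨m, rfl⟩, z, hz, hyz⟩ := hv
      have h3 : j (e2 (-m, v)) ∈ U' := by
        have : j (e2 (-m, v)) = z := by
          have h4 : ((-m, v) : V × V) = (0, v) - (m, 0) := by simp
          rw [h4, map_sub, map_sub]
          simp only [LinearMap.comp_apply, LinearEquiv.coe_coe, LinearMap.inl_apply, LinearMap.inr_apply] at hyz
          rw [← hyz]; abel
        rw [this]; exact hz
      have h5 := hjU _ h3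
      have h6 : ((-m, v) : V × V) = 0 := by
        rw [← e2.map_eq_zero_iff]; exact h5
      exact (Prod.ext_iff.1 h6).2

/-- From an element `h` with `h - a` of full rank and full corank to a square-zero element. -/
theorem exists_sq_zero {H : Subgroup (LinearMap.GeneralLinearGroup F V)} (hH : Star H)
    (hV : ℵ₀ ≤ Module.rank F V) {h : LinearMap.GeneralLinearGroup F V} (hh : h ∈ H)
    {a : F} (ha : a ≠ 0) {n : Module.End F V} (hn : n = a⁻¹ • (h : Module.End F V) - 1)
    (hrk : Module.rank F (LinearMap.range n) = Module.rank F V)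
    (hcod : Module.rank F (V ⧸ LinearMap.range n) = Module.rank F V) :
    ∃ t ∈ H, ∃ ν : Module.End F V, (t : Module.End F V) = 1 + ν ∧ ν * ν = 0 ∧
      Module.rank F (LinearMap.range ν) = Module.rank F V := by
  -- the scalar unit
  let z : LinearMap.GeneralLinearGroup F V :=
    Units.map (algebraMap F (Module.End F V)).toMonoidHom (Units.mk0 a⁻¹ (inv_ne_zero ha))
  have hz : ∀ x : LinearMap.GeneralLinearGroup F V, z * x = x * z := by
    intro x
    ext1
    simp only [z, Units.val_mul, Units.coe_map, Units.val_mk0]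
    exact Algebra.commutes _ _
  let b : LinearMap.GeneralLinearGroup F V := z * h
  have hb : (b : Module.End F V) = 1 + n := by
    rw [hn]
    simp only [b, z, Units.val_mul, Units.coe_map, Units.val_mk0]
    rw [Algebra.smul_def]
    simp
  -- a map s with n ∘ s injective
  obtain ⟨r0, hr0⟩ := n.rangeRestrict.exists_rightInverse_of_surjective
    (LinearMap.range_rangeRestrict n)
  have i0 : V ≃ₗ[F] LinearMap.range n := LinearEquiv.ofRankEq _ _ hrk.symm
  let s : V →ₗ[F] V := r0 ∘ₗ i0.toLinearMap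
  have hns : ∀ v, n (s v) = (i0 v : V) := by
    intro v
    have := LinearMap.congr_fun hr0 (i0 v)
    exact congrArg Subtype.val this
  have hs : Function.Injective s := by
    intro x y hxy
    have h1 := congrArg n hxy
    rw [hns, hns] at h1
    exact i0.injective (Subtype.val_injective h1)
  obtain ⟨w, hw, hws, hwc⟩ := exists_sub hV s hs (LinearMap.range n) hcod
  have hnw : ∀ v, n (w v) = 0 → v = 0 := by
    intro v hv
    obtain ⟨y, hy⟩ := hws ⟨v, rfl⟩
    rw [← hy, hns] at hv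
    have h1 : i0 y = 0 := Subtype.val_injective hv
    have h2 : y = 0 := i0.map_eq_zero_iff.1 h1
    rw [h2, map_zero] at hy
    exact hw (by rw [map_zero]; exact hy.symm)
  obtain ⟨p, hp, hpk⟩ := exists_proj hV _ hwc
  obtain ⟨σ, hσ⟩ := p.exists_rightInverse_of_surjective (LinearMap.range_eq_top.2 hp)
  have hpσ : ∀ x, p (σ x) = x := fun x => LinearMap.congr_fun hσ x
  let c1 : V →ₗ[F] V := σ ∘ₗ LinearMap.inl F V V
  have hpc1 : ∀ m, p (c1 m) = (m, 0) := fun m => hpσ _
  have hpR : ∀ r ∈ LinearMap.range n, p r = 0 := by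
    intro r hr
    have : r ∈ LinearMap.ker p := by rw [hpk]; exact Submodule.mem_sup_right hr
    exact this
  have hpw : ∀ m, p (w m) = 0 := by
    intro m
    have : w m ∈ LinearMap.ker p := by rw [hpk]; exact Submodule.mem_sup_left ⟨m, rfl⟩
    exact this
  let f1 : (LinearMap.range n × V) →ₗ[F] V :=
    LinearMap.coprod (LinearMap.range n).subtype c1
  let f2 : (LinearMap.range n × V) →ₗ[F] V :=
    LinearMap.coprod (LinearMap.range n).subtype (c1 + w)
  have hf1 : ∀ r m, f1 (r, m) = r + c1 m := fun r m => by simp [f1]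
  have hf2 : ∀ r m, f2 (r, m) = r + (c1 m + w m) := fun r m => by simp [f2]
  have i1 : Function.Injective f1 := by
    rw [← LinearMap.ker_eq_bot, Submodule.eq_bot_iff]
    rintro ⟨r, m⟩ hx
    rw [LinearMap.mem_ker, hf1] at hx
    have h1 := congrArg p hx
    rw [map_add, hpR _ r.2, hpc1, zero_add, map_zero] at h1
    have hm : m = 0 := (Prod.ext_iff.1 h1).1
    rw [hm, map_zero, add_zero] at hx
    rw [hm, Prod.mk_eq_zero]
    exact ⟨Subtype.val_injective hx, rfl⟩
  have i2 : Function.Injective f2 := by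
    rw [← LinearMap.ker_eq_bot, Submodule.eq_bot_iff]
    rintro ⟨r, m⟩ hx
    rw [LinearMap.mem_ker, hf2] at hx
    have h1 := congrArg p hx
    rw [map_add, map_add, hpR _ r.2, hpc1, hpw, zero_add, map_zero, add_zero] at h1
    have hm : m = 0 := (Prod.ext_iff.1 h1).1
    rw [hm, map_zero, map_zero, add_zero, add_zero] at hx
    rw [hm, Prod.mk_eq_zero]
    exact ⟨Subtype.val_injective hx, rfl⟩
  have hsurj2 : Function.Surjective (LinearMap.snd F V V ∘ₗ p) := by
    intro v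
    obtain ⟨x, hx⟩ := hp (0, v)
    exact ⟨x, by simp [hx]⟩
  have q1 : Module.rank F (V ⧸ LinearMap.range f1) = Module.rank F V := by
    apply codim_of_surj' (C := V) f1 (LinearMap.snd F V V ∘ₗ p) hsurj2 _ rfl
    rintro ⟨r, m⟩
    rw [hf1, LinearMap.comp_apply, map_add, hpR _ r.2, hpc1]; simp
  have q2 : Module.rank F (V ⧸ LinearMap.range f2) = Module.rank F V := by
    apply codim_of_surj' (C := V) f2 (LinearMap.snd F V V ∘ₗ p) hsurj2 _ rfl
    rintro ⟨r, m⟩
    have h9 : p (r + (c1 m + w m)) = (m, 0) := by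
      rw [map_add, map_add, hpR _ r.2, hpc1, hpw]; simp
    rw [hf2, LinearMap.comp_apply, h9]; simp
  obtain ⟨k1, hk1, hk1e⟩ := move hH hV (rank_prod_eq hV hrk rfl) f1 f2 i1 i2 q1 q2
  have hk1n : (k1 : Module.End F V) * n = n := by
    ext v
    have h1 := hk1e (⟨n v, ⟨v, rfl⟩⟩, 0)
    rw [hf1, hf2] at h1
    simpa using h1
  have hk1c : ∀ m, (k1 : V →ₗ[F] V) (c1 m) = c1 m + w m := by
    intro m
    have h1 := hk1e (0, m)
    rw [hf1, hf2] at h1
    simpa using h1
  -- the commutator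
  have hk1' : ((k1⁻¹ : LinearMap.GeneralLinearGroup F V) : Module.End F V) * n = n := by
    calc ((k1⁻¹ : LinearMap.GeneralLinearGroup F V) : Module.End F V) * n
        = ((k1⁻¹ : LinearMap.GeneralLinearGroup F V) : Module.End F V) * (k1 * n) := by rw [hk1n]
      _ = n := by rw [← mul_assoc, Units.inv_mul, one_mul]
  have hmv : ((k1⁻¹ * b * k1 * b⁻¹ : LinearMap.GeneralLinearGroup F V) : Module.End F V) =
      1 + n * ((k1 : Module.End F V) - 1) := by
    have h1 : ((k1⁻¹ * b * k1 * b⁻¹ : LinearMap.GeneralLinearGroup F V) : Module.End F V) *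
        (b : Module.End F V) = (1 + n * ((k1 : Module.End F V) - 1)) * b := by
      calc ((k1⁻¹ * b * k1 * b⁻¹ : LinearMap.GeneralLinearGroup F V) : Module.End F V) *
          (b : Module.End F V)
          = ((k1⁻¹ : LinearMap.GeneralLinearGroup F V) : Module.End F V) * b * k1 *
            (((b⁻¹ : LinearMap.GeneralLinearGroup F V) : Module.End F V) * b) := by
            simp only [Units.val_mul, mul_assoc]
        _ = ((k1⁻¹ : LinearMap.GeneralLinearGroup F V) : Module.End F V) * (1 + n) * k1 := by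
            rw [Units.inv_mul, mul_one, hb]
        _ = ((k1⁻¹ : LinearMap.GeneralLinearGroup F V) : Module.End F V) * k1 +
            (((k1⁻¹ : LinearMap.GeneralLinearGroup F V) : Module.End F V) * n) * k1 := by
            noncomm_ring
        _ = 1 + n * k1 := by rw [Units.inv_mul, hk1']
        _ = 1 + n * k1 + n * (k1 * n - n) := by rw [hk1n]; simp
        _ = (1 + n * ((k1 : Module.End F V) - 1)) * (1 + n) := by noncomm_ring
        _ = _ := by rw [hb]
    have h3 := congrArg (· * ((b⁻¹ : LinearMap.GeneralLinearGroup F V) : Module.End F V)) h1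
    simp only [mul_assoc, Units.mul_inv, mul_one] at h3
    simpa only [mul_assoc] using h3
  refine ⟨k1⁻¹ * b * k1 * b⁻¹, ?_, n * ((k1 : Module.End F V) - 1), hmv, ?_, ?_⟩
  · have e1 : k1⁻¹ * b * k1 * b⁻¹ = k1⁻¹ * h * k1 * h⁻¹ := by
      have e2 : k1⁻¹ * b * k1 * b⁻¹ = z * (k1⁻¹ * h * k1 * h⁻¹) * z⁻¹ := by
        have e3 : k1⁻¹ * b = z * (k1⁻¹ * h) := by
          simp only [b]; rw [← mul_assoc, ← hz k1⁻¹, mul_assoc]
        rw [e3]
        simp only [b, mul_inv_rev]
        group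
      rw [e2, hz, mul_assoc, mul_inv_cancel, mul_one]
    rw [e1]
    exact H.mul_mem (H.mul_mem (H.mul_mem (H.inv_mem hk1) hh) hk1) (H.inv_mem hh)
  · calc n * ((k1 : Module.End F V) - 1) * (n * ((k1 : Module.End F V) - 1))
        = n * (k1 * n - n) * ((k1 : Module.End F V) - 1) := by noncomm_ring
      _ = 0 := by rw [hk1n]; simp
  · apply le_antisymm (Submodule.rank_le _)
    apply LinearMap.rank_le_of_injective
      ((n * ((k1 : Module.End F V) - 1)).rangeRestrict ∘ₗ c1)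
    rw [← LinearMap.ker_eq_bot, Submodule.eq_bot_iff]
    intro m hm
    have h1 : (n * ((k1 : Module.End F V) - 1)) (c1 m) = 0 := by
      have := congrArg Subtype.val (LinearMap.mem_ker.1 hm)
      exact this
    have h2 : (n * ((k1 : Module.End F V) - 1)) (c1 m) =
        n ((k1 : V →ₗ[F] V) (c1 m) - c1 m) := rfl
    rw [h2, hk1c, add_sub_cancel_left] at h1
    exact hnw m h1

/-- All elementary transvections of full rank type belong to `H`, once `H` contains `1 + ν` with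
`ν` of square zero and full rank. -/
theorem elem_mem2 {H : Subgroup (LinearMap.GeneralLinearGroup F V)} (hH : Star H)
    (hV : ℵ₀ ≤ Module.rank F V)
    (hν : ∃ t ∈ H, ∃ ν : Module.End F V, (t : Module.End F V) = 1 + ν ∧ ν * ν = 0 ∧
      Module.rank F (LinearMap.range ν) = Module.rank F V)
    {M₁ M₂ M₃ : Type u} [AddCommGroup M₁] [Module F M₁] [AddCommGroup M₂] [Module F M₂]
    [AddCommGroup M₃] [Module F M₃] (h₁ : Module.rank F M₁ = Module.rank F V)
    (h₂ : Module.rank F M₂ = Module.rank F V) (h₃ : Module.rank F M₃ = Module.rank F V)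
    (e : (M₁ × (M₂ × M₃)) ≃ₗ[F] V) (f : M₃ →ₗ[F] M₁) :
    ∃ t ∈ H, ∀ a b c, (t : V →ₗ[F] V) (e (a, (b, c))) = e (a + f c, (b, c)) := by
  obtain ⟨b, hb, n, hbn, hnn, hrk⟩ := hν
  have hnn' : ∀ v, n (n v) = 0 := fun v => LinearMap.congr_fun hnn v
  have hbv : ∀ v, (b : V →ₗ[F] V) v = v + n v := by
    intro v
    have := LinearMap.congr_fun hbn v
    simpa using this
  have hbi : ∀ v, ((b⁻¹ : LinearMap.GeneralLinearGroup F V) : V →ₗ[F] V) v = v - n v := by
    intro v
    have h1 : (b : V →ₗ[F] V) (v - n v) = v := by rw [hbv, map_sub, hnn']; abel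
    rw [← gl_inv_apply b (v - n v), h1]
  -- four copies of V on which n is injective
  have hV4 : Module.rank F (V × (V × (V × V))) = Module.rank F V :=
    rank_prod_eq hV rfl (rank_prod_eq hV rfl (rank_prod_eq hV rfl rfl))
  obtain ⟨r0, hr0⟩ := n.rangeRestrict.exists_rightInverse_of_surjective
    (LinearMap.range_rangeRestrict n)
  have i0 : (V × (V × (V × V))) ≃ₗ[F] LinearMap.range n := LinearEquiv.ofRankEq _ _
    (by rw [hrk, hV4])
  let j : (V × (V × (V × V))) →ₗ[F] V := r0 ∘ₗ i0.toLinearMap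
  have hnj : ∀ x, n (j x) = (i0 x : V) := by
    intro x
    have := LinearMap.congr_fun hr0 (i0 x)
    exact congrArg Subtype.val this
  let π : V →ₗ[F] (V × (V × (V × V))) := i0.symm.toLinearMap ∘ₗ n.rangeRestrict
  have hπj : ∀ x, π (j x) = x := by
    intro x
    have h1 : n.rangeRestrict (j x) = i0 x := Subtype.val_injective (hnj x)
    change i0.symm (n.rangeRestrict (j x)) = x
    rw [h1, LinearEquiv.symm_apply_apply]
  have hπ0 : ∀ v, π v = 0 ↔ n v = 0 := by
    intro v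
    change i0.symm (n.rangeRestrict v) = 0 ↔ _
    rw [LinearEquiv.map_eq_zero_iff]
    exact Subtype.ext_iff
  have hπn : ∀ v, π (n v) = 0 := fun v => (hπ0 _).2 (hnn' v)
  -- Q = R + C1
  let c1 : V →ₗ[F] V := j ∘ₗ LinearMap.inl F V (V × (V × V))
  have hπc1 : ∀ c, π (c1 c) = (c, 0) := fun c => hπj _
  set R := LinearMap.range n with hR
  set Q := R ⊔ LinearMap.range c1 with hQ
  have hnQ : ∀ v, n v ∈ Q := fun v => Submodule.mem_sup_left ⟨v, rfl⟩
  have hc1Q : ∀ c, c1 c ∈ Q := fun c => Submodule.mem_sup_right ⟨c, rfl⟩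
  have hQe : ∀ q ∈ Q, ∃ v c, q = n v + c1 c := by
    intro q hq
    obtain ⟨_, ⟨v, rfl⟩, _, ⟨c, rfl⟩, rfl⟩ := Submodule.mem_sup.1 hq
    exact ⟨v, c, rfl⟩
  have hπQ : ∀ q ∈ Q, ∃ c, π q = (c, 0) := by
    intro q hq
    obtain ⟨v, c, rfl⟩ := hQe q hq
    exact ⟨c, by rw [map_add, hπn, hπc1, zero_add]⟩
  have hQr : Module.rank F Q = Module.rank F V := by
    apply le_antisymm (Submodule.rank_le _)
    apply LinearMap.rank_le_of_injective (LinearMap.codRestrict Q c1 hc1Q)
    intro x y hxy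
    have h1 : c1 x = c1 y := congrArg Subtype.val hxy
    have h2 := congrArg π h1
    rw [hπc1, hπc1] at h2
    exact (Prod.ext_iff.1 h2).1
  -- the element k1
  let g1 : (Q × V) →ₗ[F] V := LinearMap.coprod Q.subtype
    (j ∘ₗ LinearMap.inr F V (V × (V × V)) ∘ₗ LinearMap.inl F V (V × V))
  let g2 : (Q × V) →ₗ[F] V := LinearMap.coprod Q.subtype
    (j ∘ₗ LinearMap.inr F V (V × (V × V)) ∘ₗ LinearMap.inr F V (V × V) ∘ₗ LinearMap.inl F V V)
  have hg1 : ∀ (q : Q) m, g1 (q, m) = q + j (0, (m, 0)) := fun q m => by simp [g1]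
  have hg2 : ∀ (q : Q) m, g2 (q, m) = q + j (0, (0, (m, 0))) := fun q m => by simp [g2]
  have ig1 : Function.Injective g1 := by
    rw [← LinearMap.ker_eq_bot, Submodule.eq_bot_iff]
    rintro ⟨q, m⟩ hx
    rw [LinearMap.mem_ker, hg1] at hx
    obtain ⟨c, hc⟩ := hπQ q q.2
    have h1 := congrArg π hx
    rw [map_add, hc, hπj, map_zero] at h1
    have hm : m = 0 := by
      have := congrArg (fun x => x.2.1) h1
      simpa using this
    have h2 : ((0 : V), ((0 : V), ((0 : V × V)))) = (0 : V × (V × (V × V))) := rfl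
    rw [hm, h2, map_zero, add_zero] at hx
    rw [hm, Prod.mk_eq_zero]
    exact ⟨Subtype.val_injective hx, rfl⟩
  have ig2 : Function.Injective g2 := by
    rw [← LinearMap.ker_eq_bot, Submodule.eq_bot_iff]
    rintro ⟨q, m⟩ hx
    rw [LinearMap.mem_ker, hg2] at hx
    obtain ⟨c, hc⟩ := hπQ q q.2
    have h1 := congrArg π hx
    rw [map_add, hc, hπj, map_zero] at h1
    have hm : m = 0 := by
      have := congrArg (fun x => x.2.2.1) h1
      simpa using this
    have h2 : ((0 : V), ((0 : V), ((0 : V), (0 : V)))) = (0 : V × (V × (V × V))) := rfl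
    rw [hm, h2, map_zero, add_zero] at hx
    rw [hm, Prod.mk_eq_zero]
    exact ⟨Subtype.val_injective hx, rfl⟩
  let p4 : V →ₗ[F] V := LinearMap.snd F V V ∘ₗ LinearMap.snd F V (V × V) ∘ₗ
    LinearMap.snd F V (V × (V × V)) ∘ₗ π
  have hp4 : ∀ v, p4 v = (π v).2.2.2 := fun v => rfl
  have sp4 : Function.Surjective p4 := by
    intro v
    exact ⟨j (0, (0, (0, v))), by rw [hp4, hπj]⟩
  have cg1 : Module.rank F (V ⧸ LinearMap.range g1) = Module.rank F V := by
    apply codim_of_surj' (C := V) g1 p4 sp4 _ rfl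
    rintro ⟨q, m⟩
    obtain ⟨c, hc⟩ := hπQ q q.2
    rw [hg1, hp4, map_add, hc, hπj]; simp
  have cg2 : Module.rank F (V ⧸ LinearMap.range g2) = Module.rank F V := by
    apply codim_of_surj' (C := V) g2 p4 sp4 _ rfl
    rintro ⟨q, m⟩
    obtain ⟨c, hc⟩ := hπQ q q.2
    rw [hg2, hp4, map_add, hc, hπj]; simp
  obtain ⟨k1, hk1, hk1e⟩ := move hH hV (rank_prod_eq hV hQr rfl) g1 g2 ig1 ig2 cg1 cg2
  have hz3 : ((0 : V), ((0 : V), ((0 : V × V)))) = (0 : V × (V × (V × V))) := rfl
  have hz4 : ((0 : V), ((0 : V), ((0 : V), (0 : V)))) = (0 : V × (V × (V × V))) := rfl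
  have hk1Q : ∀ q ∈ Q, (k1 : V →ₗ[F] V) q = q := by
    intro q hq
    have h1 := hk1e (⟨q, hq⟩, 0)
    rw [hg1, hg2, hz3, hz4, map_zero, add_zero] at h1
    exact h1
  have hk1m : ∀ m, (k1 : V →ₗ[F] V) (j (0, (m, 0))) = j (0, (0, (m, 0))) := by
    intro m
    have h1 := hk1e (0, m)
    rw [hg1, hg2] at h1
    simpa using h1
  -- ν1
  let ν : V →ₗ[F] V := n ∘ₗ ((k1 : V →ₗ[F] V) - LinearMap.id)
  have hν : ∀ v, ν v = n ((k1 : V →ₗ[F] V) v - v) := fun v => rfl
  have hνQ : ∀ q ∈ Q, ν q = 0 := by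
    intro q hq; rw [hν, hk1Q q hq, sub_self, map_zero]
  have hνinQ : ∀ v, ν v ∈ Q := fun v => hnQ _
  -- the subspaces D and X
  let X : Submodule F V := LinearMap.range (n ∘ₗ c1)
  let D : Submodule F V := X.comap ν
  have hDcod : Module.rank F (V ⧸ D) = Module.rank F V := by
    apply le_antisymm (rank_quotient_le _)
    apply LinearMap.rank_le_of_injective (D.mkQ ∘ₗ j ∘ₗ LinearMap.inr F V (V × (V × V)) ∘ₗ
      LinearMap.inl F V (V × V))
    rw [← LinearMap.ker_eq_bot, Submodule.eq_bot_iff]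
    intro m hm
    have h1 : j (0, (m, 0)) ∈ D := (Submodule.Quotient.mk_eq_zero D).1 hm
    obtain ⟨c, hc⟩ := h1
    have h2 : ν (j (0, (m, 0))) = n (j (0, (-m, (m, 0)))) := by
      rw [hν, hk1m, ← map_sub]; congr 2; simp
    rw [h2] at hc
    have h3 : n (c1 c - j (0, (-m, (m, 0)))) = 0 := by
      rw [map_sub, sub_eq_zero]; exact hc
    rw [← hπ0, map_sub, hπc1, hπj] at h3
    have := congrArg (fun x => x.2.1) h3
    simpa using this
  have i₁ : M₁ ≃ₗ[F] V := LinearEquiv.ofRankEq _ _ h₁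
  have hXD : ∀ c, n (c1 c) ∈ D := by
    intro c
    change ν (n (c1 c)) ∈ X
    rw [hνQ _ (hnQ _)]
    exact X.zero_mem
  have hc1D : ∀ c, c1 c ∈ D := by
    intro c
    change ν (c1 c) ∈ X
    rw [hνQ _ (hc1Q _)]
    exact X.zero_mem
  have hnc1 : ∀ c, n (c1 c) = 0 → c = 0 := by
    intro c hc
    rw [← hπ0, hπc1] at hc
    exact (Prod.ext_iff.1 hc).1
  let ι : M₁ →ₗ[F] D := LinearMap.codRestrict D (n ∘ₗ c1 ∘ₗ i₁.toLinearMap) (fun m => hXD _)
  have hιinj : Function.Injective ι := by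
    rw [← LinearMap.ker_eq_bot, Submodule.eq_bot_iff]
    intro m hm
    have h1 : n (c1 (i₁ m)) = 0 := congrArg Subtype.val (LinearMap.mem_ker.1 hm)
    exact i₁.map_eq_zero_iff.1 (hnc1 _ h1)
  have hDr : Module.rank F (D ⧸ LinearMap.range ι) = Module.rank F M₂ := by
    rw [h₂]
    apply le_antisymm ((rank_quotient_le _).trans (Submodule.rank_le _))
    apply LinearMap.rank_le_of_injective ((LinearMap.range ι).mkQ ∘ₗ
      (LinearMap.codRestrict D c1 hc1D))
    rw [← LinearMap.ker_eq_bot, Submodule.eq_bot_iff]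
    intro c hc
    have hc1 : LinearMap.codRestrict D c1 hc1D c ∈ LinearMap.range ι :=
      (Submodule.Quotient.mk_eq_zero _).1 hc
    obtain ⟨m, hm⟩ := hc1
    have hm' : n (c1 (i₁ m)) = c1 c := congrArg Subtype.val hm
    have h3 := congrArg π hm'
    rw [hπn, hπc1] at h3
    exact (Prod.ext_iff.1 h3).1.symm
  obtain ⟨eD, heD⟩ := exists_split (C := M₂) ι hιinj hDr
  -- the conjugating element
  let l1 : (M₁ × M₂) →ₗ[F] V := e.toLinearMap ∘ₗ
    (LinearMap.prodMap (LinearMap.id) (LinearMap.inl F M₂ M₃))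
  have hl1 : ∀ a b, l1 (a, b) = e (a, (b, 0)) := fun v c => rfl
  let l2 : (M₁ × M₂) →ₗ[F] V := D.subtype ∘ₗ eD.toLinearMap
  have hl2 : ∀ x, l2 x = (eD x : V) := fun x => rfl
  have il1 : Function.Injective l1 := by
    rintro ⟨v, c⟩ ⟨v', c'⟩ hx
    rw [hl1, hl1] at hx
    have := e.injective hx
    simp only [Prod.mk.injEq] at this
    simp [this.1, this.2.1]
  have il2 : Function.Injective l2 := (Submodule.subtype_injective _).comp eD.injective
  have cl1 : Module.rank F (V ⧸ LinearMap.range l1) = Module.rank F V := by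
    apply codim_of_surj' (C := M₃) l1 (LinearMap.snd F M₂ M₃ ∘ₗ LinearMap.snd F M₁ (M₂ × M₃) ∘ₗ
      e.symm.toLinearMap) _ _ h₃
    · intro v; exact ⟨e (0, (0, v)), by simp⟩
    · rintro ⟨v, c⟩; rw [hl1]; simp
  have hrl2 : LinearMap.range l2 = D := by
    apply le_antisymm
    · rintro _ ⟨x, rfl⟩; exact (eD x).2
    · intro d hd; exact ⟨eD.symm ⟨d, hd⟩, by simp [hl2]⟩
  have cl2 : Module.rank F (V ⧸ LinearMap.range l2) = Module.rank F V := by
    rw [hrl2, hDcod]
  obtain ⟨h0, hh0, hh0e⟩ := move hH hV (rank_prod_eq hV h₁ h₂) l1 l2 il1 il2 cl1 cl2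
  -- the map μ : V → V with lam = n ∘ c1 ∘ μ
  let μ : V →ₗ[F] V := i₁.toLinearMap ∘ₗ f ∘ₗ
    LinearMap.snd F M₂ M₃ ∘ₗ LinearMap.snd F M₁ (M₂ × M₃) ∘ₗ e.symm.toLinearMap ∘ₗ
    ((h0⁻¹ : LinearMap.GeneralLinearGroup F V) : V →ₗ[F] V)
  have hμ : ∀ a b c, μ ((h0 : V →ₗ[F] V) (e (a, (b, c)))) = i₁ (f c) := by
    intro a b c
    simp only [μ, LinearMap.comp_apply, LinearEquiv.coe_coe, gl_inv_apply,
      LinearEquiv.symm_apply_apply, LinearMap.snd_apply]
  have hμD : ∀ d ∈ D, μ d = 0 := by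
    intro d hd
    obtain ⟨x, hx⟩ : ∃ x, l2 x = d := by
      have : d ∈ LinearMap.range l2 := by rw [hrl2]; exact hd
      exact this
    obtain ⟨a, b⟩ := x
    rw [← hh0e, hl1] at hx
    rw [← hx, hμ]
    simp
  -- the map τ
  let W₀ : Submodule F V := X ⊔ LinearMap.range c1
  obtain ⟨ρ, hρ⟩ := exists_factor' (W₀.mkQ ∘ₗ ν) μ (by
    intro v hv
    have h1 : ν v ∈ W₀ := (Submodule.Quotient.mk_eq_zero _).1 hv
    obtain ⟨_, ⟨x, rfl⟩, _, ⟨y, rfl⟩, hxy⟩ := Submodule.mem_sup.1 h1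
    have h2 := congrArg π hxy
    have hx' : (n ∘ₗ c1) x = n (c1 x) := rfl
    rw [map_add, hx', hπn, hπc1, hν, hπn, zero_add] at h2
    have hy : y = 0 := (Prod.ext_iff.1 h2).1
    rw [hy, map_zero, add_zero] at hxy
    apply hμD
    change ν v ∈ X
    rw [← hxy]
    exact ⟨x, rfl⟩)
  let τ : V →ₗ[F] V := -(c1 ∘ₗ ρ ∘ₗ W₀.mkQ)
  have hτ : ∀ v, τ v = -(c1 (ρ (W₀.mkQ v))) := fun v => rfl
  have hτW : ∀ v ∈ W₀, τ v = 0 := by
    intro v hv
    rw [hτ]
    have : W₀.mkQ v = 0 := (Submodule.Quotient.mk_eq_zero _).2 hv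
    rw [this, map_zero, map_zero, neg_zero]
  have hτc1 : ∀ c, τ (c1 c) = 0 := fun c => hτW _ (Submodule.mem_sup_right ⟨c, rfl⟩)
  have hττ : ∀ v, τ (τ v) = 0 := by
    intro v
    rw [hτ v, map_neg, hτc1, neg_zero]
  have hτQ : ∀ v, τ v ∈ Q := by
    intro v; rw [hτ]; exact Q.neg_mem (hc1Q _)
  have hτn : ∀ q ∈ Q, τ (n q) = 0 := by
    intro q hq
    obtain ⟨v, c, rfl⟩ := hQe q hq
    rw [map_add, hnn', zero_add]
    exact hτW _ (Submodule.mem_sup_left ⟨c, rfl⟩)
  -- the element g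
  let m2 : Q →ₗ[F] V := Q.subtype + τ ∘ₗ Q.subtype
  have hm2 : ∀ q : Q, m2 q = q + τ q := fun q => rfl
  have im2 : Function.Injective m2 := by
    rw [← LinearMap.ker_eq_bot, Submodule.eq_bot_iff]
    intro q hq
    rw [LinearMap.mem_ker, hm2] at hq
    have h1 := congrArg τ hq
    rw [map_add, hττ, add_zero, map_zero] at h1
    rw [h1, add_zero] at hq
    exact Subtype.val_injective hq
  have rm2 : LinearMap.range m2 = Q := by
    apply le_antisymm
    · rintro _ ⟨q, rfl⟩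
      rw [hm2]; exact Q.add_mem q.2 (hτQ _)
    · intro q hq
      refine ⟨⟨q - τ q, Q.sub_mem hq (hτQ _)⟩, ?_⟩
      rw [hm2]
      simp [hττ]
  have cQ : Module.rank F (V ⧸ Q) = Module.rank F V := by
    have h1 := codim_of_surj' (C := V) Q.subtype p4 sp4 (by
      intro q
      obtain ⟨c, hc⟩ := hπQ q q.2
      rw [Submodule.subtype_apply, hp4, hc]; simp) rfl
    rw [Submodule.range_subtype] at h1
    exact h1
  obtain ⟨g, hg, hge⟩ := move hH hV hQr Q.subtype m2 (Submodule.subtype_injective _) im2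
    (by rw [Submodule.range_subtype]; exact cQ) (by rw [rm2]; exact cQ)
  have hgQ : ∀ q ∈ Q, (g : V →ₗ[F] V) q = q + τ q := fun q hq => hge ⟨q, hq⟩
  have hgiQ : ∀ q ∈ Q, ((g⁻¹ : LinearMap.GeneralLinearGroup F V) : V →ₗ[F] V) q = q - τ q := by
    intro q hq
    have h1 : (g : V →ₗ[F] V) (q - τ q) = q := by
      rw [hgQ _ (Q.sub_mem hq (hτQ _)), map_sub, hττ]; abel
    rw [← gl_inv_apply g (q - τ q), h1]
  -- the element k
  let k : LinearMap.GeneralLinearGroup F V := g * b * g⁻¹ * b⁻¹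
  have hkv : ∀ v, (k : V →ₗ[F] V) v = (g : V →ₗ[F] V) ((b : V →ₗ[F] V)
      (((g⁻¹ : LinearMap.GeneralLinearGroup F V) : V →ₗ[F] V)
        (((b⁻¹ : LinearMap.GeneralLinearGroup F V) : V →ₗ[F] V) v))) := fun v => rfl
  have hkQ : ∀ q ∈ Q, (k : V →ₗ[F] V) q = q - n (τ q) := by
    intro q hq
    have h1 : q - n q ∈ Q := Q.sub_mem hq (hnQ _)
    rw [hkv, hbi, hgiQ _ h1, map_sub τ, hτn q hq, sub_zero, hbv]
    have h2 : n (q - n q - τ q) = n q - n (τ q) := by
      rw [map_sub, map_sub, hnn', sub_zero]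
    rw [h2]
    have h3 : q - n q - τ q + (n q - n (τ q)) = q - τ q - n (τ q) := by abel
    rw [h3, hgQ _ (Q.sub_mem (Q.sub_mem hq (hτQ _)) (hnQ _)), map_sub, map_sub, hττ,
      hτn _ (hτQ _)]
    abel
  have hkmod : ∀ v, (k : V →ₗ[F] V) v - v ∈ Q := by
    intro v
    rw [hkv, hbi]
    set w := ((g⁻¹ : LinearMap.GeneralLinearGroup F V) : V →ₗ[F] V) (v - n v) with hw
    rw [hbv, map_add, hw, gl_apply_inv]
    rw [hgQ _ (hnQ _)]
    have h1 : v - n v + (n w + τ (n w)) - v = (n w + τ (n w)) - n v := by abel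
    rw [h1]
    exact Q.sub_mem (Q.add_mem (hnQ _) (hτQ _)) (hnQ _)
  have hkiQ : ∀ q ∈ Q, ((k⁻¹ : LinearMap.GeneralLinearGroup F V) : V →ₗ[F] V) q = q + n (τ q) := by
    intro q hq
    have h1 : (k : V →ₗ[F] V) (q + n (τ q)) = q := by
      rw [hkQ _ (Q.add_mem hq (hnQ _)), map_add, hτn _ (hτQ _), add_zero]; abel
    rw [← gl_inv_apply k (q + n (τ q)), h1]
  have hkimod : ∀ v, ((k⁻¹ : LinearMap.GeneralLinearGroup F V) : V →ₗ[F] V) v - v ∈ Q := by
    intro v
    have h1 : ((k⁻¹ : LinearMap.GeneralLinearGroup F V) : V →ₗ[F] V) v - v =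
      -((k⁻¹ : LinearMap.GeneralLinearGroup F V) : V →ₗ[F] V) ((k : V →ₗ[F] V) v - v) := by
      rw [map_sub, gl_inv_apply]; abel
    rw [h1, hkiQ _ (hkmod v)]
    exact Q.neg_mem (Q.add_mem (hkmod v) (hnQ _))
  -- the element m
  let m : LinearMap.GeneralLinearGroup F V := k1⁻¹ * b * k1 * b⁻¹
  have hk1i : ∀ q ∈ Q, ((k1⁻¹ : LinearMap.GeneralLinearGroup F V) : V →ₗ[F] V) q = q := by
    intro q hq
    have h1 := gl_inv_apply k1 q
    rw [hk1Q q hq] at h1
    exact h1
  have hmv : ∀ v, (m : V →ₗ[F] V) v = v + ν v := by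
    intro v
    have h1 : (m : V →ₗ[F] V) v = ((k1⁻¹ : LinearMap.GeneralLinearGroup F V) : V →ₗ[F] V)
      ((b : V →ₗ[F] V) ((k1 : V →ₗ[F] V)
        (((b⁻¹ : LinearMap.GeneralLinearGroup F V) : V →ₗ[F] V) v))) := rfl
    rw [h1, hbi, map_sub, hk1Q _ (hnQ v), hbv, map_sub n, hnn', sub_zero, map_add, map_sub,
      gl_inv_apply, hk1i _ (hnQ _), hk1i _ (hnQ _), hν, map_sub]
    abel
  have hmi : ∀ v, ((m⁻¹ : LinearMap.GeneralLinearGroup F V) : V →ₗ[F] V) v = v - ν v := by
    intro v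
    have h1 : (m : V →ₗ[F] V) (v - ν v) = v := by
      rw [hmv, map_sub, hνQ _ (hνinQ v)]; abel
    rw [← gl_inv_apply m (v - ν v), h1]
  -- the commutator
  have hT : ∀ v, ((k * m * k⁻¹ * m⁻¹ : LinearMap.GeneralLinearGroup F V) : V →ₗ[F] V) v =
      v + n (c1 (μ v)) := by
    intro v
    have h1 : ((k * m * k⁻¹ * m⁻¹ : LinearMap.GeneralLinearGroup F V) : V →ₗ[F] V) v =
      (k : V →ₗ[F] V) ((m : V →ₗ[F] V)
        (((k⁻¹ : LinearMap.GeneralLinearGroup F V) : V →ₗ[F] V)
          (((m⁻¹ : LinearMap.GeneralLinearGroup F V) : V →ₗ[F] V) v))) := rfl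
    have h2 : ν (((k⁻¹ : LinearMap.GeneralLinearGroup F V) : V →ₗ[F] V) v) = ν v := by
      have := hνQ _ (hkimod v)
      rw [map_sub, sub_eq_zero] at this
      exact this
    have h3 : ν (((k⁻¹ : LinearMap.GeneralLinearGroup F V) : V →ₗ[F] V) (ν v)) = 0 := by
      rw [hkiQ _ (hνinQ v)]
      exact hνQ _ (Q.add_mem (hνinQ v) (hnQ _))
    rw [h1, hmi, map_sub, hmv, map_sub ν, h2, h3, sub_zero, map_add, map_sub, gl_apply_inv,
      gl_apply_inv, hkQ _ (hνinQ v), hτ]
    have h4 : ρ (W₀.mkQ (ν v)) = μ v := hρ v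
    rw [h4, map_neg]
    abel
  have hkH : k ∈ H := H.mul_mem (H.mul_mem (H.mul_mem hg hb) (H.inv_mem hg)) (H.inv_mem hb)
  have hmH : m ∈ H := H.mul_mem (H.mul_mem (H.mul_mem (H.inv_mem hk1) hb) hk1) (H.inv_mem hb)
  have hTH : k * m * k⁻¹ * m⁻¹ ∈ H :=
    H.mul_mem (H.mul_mem (H.mul_mem hkH hmH) (H.inv_mem hkH)) (H.inv_mem hmH)
  refine ⟨h0⁻¹ * (k * m * k⁻¹ * m⁻¹) * h0, H.mul_mem (H.mul_mem (H.inv_mem hh0) hTH) hh0,
    fun a b c => ?_⟩
  rw [gl_mul_apply, gl_mul_apply, hT, hμ, map_add, gl_inv_apply]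
  have h5 : (h0 : V →ₗ[F] V) (e (f c, (0, 0))) = n (c1 (i₁ (f c))) := by
    have h6 := hh0e (f c, 0)
    rw [hl1, hl2, heD] at h6
    exact h6
  rw [← h5, gl_inv_apply, ← map_add]
  simp

end Pool.Agent.H61.GLU
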