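import Pool.Agent.H61.GLU.Basic

open Cardinal Module

universe u

namespace Pool.Agent.H61.GLU

variable {F : Type u} [Field F]
variable {V : Type u} [AddCommGroup V] [Module F V]

theorem rank_int_finsupp (hV : ℵ₀ ≤ Module.rank F V) :
    Module.rank F (ℤ →₀ V) = Module.rank F V := by
  rw [rank_finsupp]
  simp only [Cardinal.mk_int, Cardinal.lift_uzero, Cardinal.lift_aleph0]
  exact Cardinal.aleph0_mul_eq hV

/-- the shift on `ℤ →₀ V`. -/
noncomputable def shift (F V : Type u) [Field F] [AddCommGroup V] [Module F V] :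
    (ℤ →₀ V) ≃ₗ[F] (ℤ →₀ V) := Finsupp.domLCongr (Equiv.addRight (1 : ℤ))

theorem shift_single (i : ℤ) (v : V) :
    shift F V (Finsupp.single i v) = Finsupp.single (i + 1) v := by
  simp [shift]

theorem shift_apply (x : ℤ →₀ V) (i : ℤ) : shift F V x (i + 1) = x i := by
  simp [shift, Finsupp.domLCongr_apply, Finsupp.domCongr_apply]

/-- evaluation at `a`. -/
noncomputable def ev (a : F) : (ℤ →₀ V) →ₗ[F] V :=
  Finsupp.lsum F (fun i : ℤ => (a ^ i) • (LinearMap.id : V →ₗ[F] V))

theorem ev_single (a : F) (i : ℤ) (v : V) : ev a (Finsupp.single i v) = a ^ i • v := by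
  simp [ev]

theorem ev_shift {a : F} (ha : a ≠ 0) (x : ℤ →₀ V) : ev a (shift F V x) = a • ev a x := by
  have : (ev a : (ℤ →₀ V) →ₗ[F] V) ∘ₗ (shift F V).toLinearMap = a • (ev a : (ℤ →₀ V) →ₗ[F] V) := by
    apply Finsupp.lhom_ext
    intro i v
    simp only [LinearMap.comp_apply, LinearEquiv.coe_coe, shift_single, ev_single,
      LinearMap.smul_apply, smul_smul]
    rw [zpow_add₀ ha, zpow_one, mul_comm]
  exact LinearMap.congr_fun this x

theorem shift_eigen {a : F} (ha : a ≠ 0) {x : ℤ →₀ V} (hx : shift F V x = a • x) : x = 0 := by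
  by_contra hne
  have hs : x.support.Nonempty := Finsupp.support_nonempty_iff.2 hne
  have hm := x.support.max'_mem hs
  set i := x.support.max' hs with hi
  have h1 : shift F V x (i + 1) = x i := shift_apply x i
  rw [hx, Finsupp.smul_apply] at h1
  have h2 : x i ≠ 0 := Finsupp.mem_support_iff.1 hm
  have h3 : x (i + 1) ≠ 0 := by
    intro h; rw [h, smul_zero] at h1; exact h2 h1.symm
  have h4 := x.support.le_max' (i + 1) (Finsupp.mem_support_iff.2 h3)
  omega

/-- an endomorphism of a space of dimension smaller than the field misses some nonzero eigenvalue. -/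
theorem exists_not_eigen (hV : ℵ₀ ≤ Module.rank F V) (hF : Module.rank F V < #F)
    (φ : Module.End F V) : ∃ a : F, a ≠ 0 ∧ ∀ v, φ v = a • v → v = 0 := by
  by_contra hcon
  push Not at hcon
  choose! w hw using hcon
  have h1 : ∀ a : ({0}ᶜ : Set F), φ (w a) = (a : F) • w a ∧ w a ≠ 0 := fun a => hw a a.2
  have hli : LinearIndependent F (fun a : ({0}ᶜ : Set F) => w a) := by
    apply Module.End.eigenvectors_linearIndependent' φ (fun a : ({0}ᶜ : Set F) => (a : F))
      Subtype.val_injective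
    intro a
    rw [Module.End.hasEigenvector_iff]
    exact ⟨Module.End.mem_eigenspace_iff.2 (h1 a).1, (h1 a).2⟩
  have h2 := hli.cardinal_le_rank
  have : Infinite F := Cardinal.infinite_iff.2 (hV.trans hF.le)
  have h3 : #({0}ᶜ : Set F) = #F := by
    have := Cardinal.mk_compl_finset_of_infinite ({0} : Finset F)
    simpa using this
  rw [h3] at h2
  exact absurd h2 (not_le.2 hF)

theorem exists_shift {H : Subgroup (LinearMap.GeneralLinearGroup F V)} (hH : Star H)
    (hV : ℵ₀ ≤ Module.rank F V) (hF : Module.rank F V < #F) :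
    ∃ h ∈ H, ∃ a : F, a ≠ 0 ∧ ∃ n : Module.End F V, n = a⁻¹ • (h : Module.End F V) - 1 ∧
      Function.Injective n ∧ Module.rank F (V ⧸ LinearMap.range n) = Module.rank F V := by
  obtain ⟨e⟩ := exists_double (M := ℤ →₀ V) (M' := V) (V := V) hV (rank_int_finsupp hV) rfl
  obtain ⟨h, hh, he⟩ := star_coord hH (rank_int_finsupp hV) rfl e (shift F V)
  let p : V →ₗ[F] V := LinearMap.snd F _ V ∘ₗ e.symm.toLinearMap
  have hp : ∀ x c, p (e (x, c)) = c := fun x c => by simp [p]
  let φ : Module.End F V := p ∘ₗ (h : V →ₗ[F] V) ∘ₗ e.toLinearMap ∘ₗ LinearMap.inr F _ V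
  have hφ : ∀ v, p ((h : V →ₗ[F] V) v) = φ (p v) := by
    intro v
    obtain ⟨⟨x, c⟩, rfl⟩ := e.surjective v
    have h1 : ((x, c) : (ℤ →₀ V) × V) = (x, 0) + (0, c) := by simp
    rw [hp]
    rw [h1, map_add, map_add, he, map_add, hp, zero_add]
    rfl
  obtain ⟨a, ha, hae⟩ := exists_not_eigen hV hF φ
  obtain ⟨n, hn⟩ : ∃ n : Module.End F V, n = a⁻¹ • (h : Module.End F V) - 1 := ⟨_, rfl⟩
  refine ⟨h, hh, a, ha, n, hn, ?_, ?_⟩
  · rw [← LinearMap.ker_eq_bot, Submodule.eq_bot_iff]
    intro v hv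
    have h1 : (h : V →ₗ[F] V) v = a • v := by
      have h2 : a⁻¹ • (h : V →ₗ[F] V) v = v := by
        have h3 : a⁻¹ • (h : V →ₗ[F] V) v - v = 0 := by rw [hn] at hv; exact hv
        exact sub_eq_zero.1 h3
      rw [← h2, smul_smul, mul_inv_cancel₀ ha, one_smul, h2]
    have h2 : p v = 0 := by
      apply hae
      rw [← hφ, h1, map_smul]
    obtain ⟨⟨x, c⟩, rfl⟩ := e.surjective v
    rw [hp] at h2
    subst h2
    rw [he, ← map_smul] at h1
    have h3 := e.injective h1
    have h4 : shift F V x = a • x := (Prod.ext_iff.1 h3).1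
    rw [shift_eigen ha h4]
    simp
  · apply le_antisymm (rank_quotient_le _)
    let q : (ℤ →₀ V) →ₗ[F] V ⧸ LinearMap.range n :=
      (LinearMap.range n).mkQ ∘ₗ e.toLinearMap ∘ₗ LinearMap.inl F _ V
    have hker : LinearMap.ker q ≤ LinearMap.ker (ev a) := by
      intro x hx
      have h1 : e (x, 0) ∈ LinearMap.range n := by
        simpa [q] using hx
      obtain ⟨v, hv⟩ := h1
      obtain ⟨⟨y, c⟩, rfl⟩ := e.surjective v
      have h2 : n (e (y, c)) = a⁻¹ • (h : V →ₗ[F] V) (e (y, c)) - e (y, c) := by rw [hn]; rfl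
      have h3 : p (n (e (y, c))) = 0 := by rw [hv, hp]
      rw [h2, map_sub, map_smul, hφ, hp] at h3
      have h4 : c = 0 := by
        apply hae
        rw [sub_eq_zero] at h3
        rw [← h3, smul_smul, mul_inv_cancel₀ ha, one_smul, h3]
      subst h4
      rw [h2, he, ← map_smul, ← map_sub] at hv
      have h5 := (Prod.ext_iff.1 (e.injective hv)).1
      have h6 : a⁻¹ • shift F V y - y = x := by simpa using h5
      rw [LinearMap.mem_ker, ← h6, map_sub, map_smul, ev_shift ha, smul_smul,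
        inv_mul_cancel₀ ha, one_smul, sub_self]
    have hsurj : Function.Surjective ((LinearMap.ker q).liftQ (ev a) hker) := by
      intro v
      refine ⟨Submodule.Quotient.mk (Finsupp.single 0 v), ?_⟩
      rw [Submodule.liftQ_apply, ev_single]
      simp
    calc Module.rank F V ≤ Module.rank F ((ℤ →₀ V) ⧸ LinearMap.ker q) :=
          LinearMap.rank_le_of_surjective _ hsurj
      _ = Module.rank F (LinearMap.range q) := q.quotKerEquivRange.rank_eq
      _ ≤ _ := Submodule.rank_le _

end Pool.Agent.H61.GLU
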