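import Pool.Agent.H61.GLU.Elem2
import Pool.Agent.H61.GLU.Shift

open Cardinal Module

universe u

namespace Pool.Agent.H61.GLU

variable {F : Type u} [Field F]
variable {V : Type u} [AddCommGroup V] [Module F V]

section rearr
variable (F) (A B C D : Type u) [AddCommGroup A] [Module F A] [AddCommGroup B] [Module F B]
  [AddCommGroup C] [Module F C] [AddCommGroup D] [Module F D]

/-- `(b, (y, a)) ↦ (a, (b, y))` -/
def rot : (B × (C × A)) ≃ₗ[F] (A × (B × C)) where
  toFun p := (p.2.2, (p.1, p.2.1))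
  invFun p := (p.2.1, (p.2.2, p.1))
  map_add' _ _ := rfl
  map_smul' _ _ := rfl
  left_inv _ := rfl
  right_inv _ := rfl

/-- `(a, (y, b)) ↦ (a, (b, y))` -/
def swp : (A × (C × B)) ≃ₗ[F] (A × (B × C)) where
  toFun p := (p.1, (p.2.2, p.2.1))
  invFun p := (p.1, (p.2.2, p.2.1))
  map_add' _ _ := rfl
  map_smul' _ _ := rfl
  left_inv _ := rfl
  right_inv _ := rfl

/-- `(b, (a, c)) ↦ (a, (b, c))` -/
def flp : (B × (A × C)) ≃ₗ[F] (A × (B × C)) where
  toFun p := (p.2.1, (p.1, p.2.2))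
  invFun p := (p.2.1, (p.1, p.2.2))
  map_add' _ _ := rfl
  map_smul' _ _ := rfl
  left_inv _ := rfl
  right_inv _ := rfl

/-- `(s, (t, (q, y))) ↦ (q, (s, (t, y)))` -/
def rot4 : (A × (B × (C × D))) ≃ₗ[F] (C × (A × (B × D))) where
  toFun p := (p.2.2.1, (p.1, (p.2.1, p.2.2.2)))
  invFun p := (p.2.1, (p.2.2.1, (p.1, p.2.2.2)))
  map_add' _ _ := rfl
  map_smul' _ _ := rfl
  left_inv _ := rfl
  right_inv _ := rfl

/-- `((a, b), (c, d)) ↦ (b, (a, (c, d)))` -/
def asc : ((A × B) × (C × D)) ≃ₗ[F] (B × (A × (C × D))) where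
  toFun p := (p.1.2, (p.1.1, p.2))
  invFun p := ((p.2.1, p.1), p.2.2)
  map_add' _ _ := rfl
  map_smul' _ _ := rfl
  left_inv _ := rfl
  right_inv _ := rfl

end rearr

section
variable {H : Subgroup (LinearMap.GeneralLinearGroup F V)} (hH : Star H)
    (hV : ℵ₀ ≤ Module.rank F V)
    (hν : ∃ t ∈ H, ∃ ν : Module.End F V, (t : Module.End F V) = 1 + ν ∧ ν * ν = 0 ∧
      Module.rank F (LinearMap.range ν) = Module.rank F V)
include hH hV hν

variable {M Y : Type u} [AddCommGroup M] [Module F M] [AddCommGroup Y] [Module F Y]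

theorem w_mem (hM : Module.rank F M = Module.rank F V) (hY : Module.rank F Y = Module.rank F V)
    (e : (M × (M × Y)) ≃ₗ[F] V) (s : M ≃ₗ[F] M) :
    ∃ t ∈ H, ∀ a b y, (t : V →ₗ[F] V) (e (a, (b, y))) = e (s b, (-(s.symm a), y)) := by
  obtain ⟨x, hx, hxe⟩ := elem_mem2 hH hV hν hM hY hM ((swp F M M Y).trans e) s.toLinearMap
  obtain ⟨z, hz, hze⟩ := elem_mem2 hH hV hν hM hY hM ((rot F M M Y).trans e) (-s.symm.toLinearMap)
  have hx' : ∀ a b y, (x : V →ₗ[F] V) (e (a, (b, y))) = e (a + s b, (b, y)) :=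
    fun a b y => hxe a y b
  have hz' : ∀ a b y, (z : V →ₗ[F] V) (e (a, (b, y))) = e (a, (b - s.symm a, y)) := by
    intro a b y
    rw [sub_eq_add_neg]
    exact hze b y a
  refine ⟨x * z * x, H.mul_mem (H.mul_mem hx hz) hx, fun a b y => ?_⟩
  have h1 : ((x * z * x : LinearMap.GeneralLinearGroup F V) : V →ₗ[F] V) (e (a, (b, y))) =
    (x : V →ₗ[F] V) ((z : V →ₗ[F] V) ((x : V →ₗ[F] V) (e (a, (b, y))))) := rfl
  rw [h1, hx', hz', hx']
  congr 1
  simp

theorem diag_mem (hM : Module.rank F M = Module.rank F V) (hY : Module.rank F Y = Module.rank F V)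
    (e : (M × (M × Y)) ≃ₗ[F] V) (s : M ≃ₗ[F] M) :
    ∃ t ∈ H, ∀ a b y, (t : V →ₗ[F] V) (e (a, (b, y))) = e (s a, (s.symm b, y)) := by
  obtain ⟨x, hx, hxe⟩ := w_mem hH hV hν hM hY e s
  obtain ⟨z, hz, hze⟩ := w_mem hH hV hν hM hY e (LinearEquiv.neg F)
  refine ⟨x * z, H.mul_mem hx hz, fun a b y => ?_⟩
  have h1 : ((x * z : LinearMap.GeneralLinearGroup F V) : V →ₗ[F] V) (e (a, (b, y))) =
    (x : V →ₗ[F] V) ((z : V →ₗ[F] V) (e (a, (b, y)))) := rfl
  rw [h1, hze, hxe]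
  congr 1
  simp

omit hH hν in
theorem rank_nat_finsupp (hM : Module.rank F M = Module.rank F V) :
    Module.rank F (ℕ →₀ M) = Module.rank F V := by
  rw [rank_finsupp, hM]
  simp only [Cardinal.mk_nat, Cardinal.lift_uzero, Cardinal.lift_aleph0]
  exact Cardinal.aleph0_mul_eq hV

end

/-- the isomorphism `S ≃ S × Q` for `S = ℕ →₀ Q`. -/
noncomputable def jj (F Q : Type u) [Field F] [AddCommGroup Q] [Module F Q] :
    (ℕ →₀ Q) ≃ₗ[F] (ℕ →₀ Q) × Q :=
  ((Finsupp.domLCongr Equiv.natSumPUnitEquivNat.{0}.symm).trans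
    (Finsupp.sumFinsuppLEquivProdFinsupp F)).trans
    (LinearEquiv.prodCongr (LinearEquiv.refl F _)
      (Finsupp.uniqueLinearEquiv F Q PUnit.unit.{1}))

theorem jj_fst {Q : Type u} [AddCommGroup Q] [Module F Q] (x : ℕ →₀ Q) (i : ℕ) :
    (jj F Q x).1 i = x (i + 1) := by
  simp [jj, Equiv.natSumPUnitEquivNat]
  rfl

theorem jj_snd {Q : Type u} [AddCommGroup Q] [Module F Q] (x : ℕ →₀ Q) :
    (jj F Q x).2 = x 0 := by
  simp [jj, Equiv.natSumPUnitEquivNat]
  rfl

/-- the induced map on `ℕ →₀ Q`. -/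
noncomputable def hat {Q : Type u} [AddCommGroup Q] [Module F Q] (g : Q ≃ₗ[F] Q) :
    (ℕ →₀ Q) ≃ₗ[F] (ℕ →₀ Q) := Finsupp.mapRange.linearEquiv g

theorem hat_apply {Q : Type u} [AddCommGroup Q] [Module F Q] (g : Q ≃ₗ[F] Q) (x : ℕ →₀ Q) (i : ℕ) :
    hat g x i = g (x i) := by
  simp [hat]

theorem jj_hat {Q : Type u} [AddCommGroup Q] [Module F Q] (g : Q ≃ₗ[F] Q) (x : ℕ →₀ Q) :
    jj F Q (hat g x) = (hat g (jj F Q x).1, g (jj F Q x).2) := by
  ext i
  · rw [jj_fst, hat_apply, hat_apply, jj_fst]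
  · rw [jj_snd, hat_apply, jj_snd]

section
variable {H : Subgroup (LinearMap.GeneralLinearGroup F V)} (hH : Star H)
    (hV : ℵ₀ ≤ Module.rank F V)
    (hν : ∃ t ∈ H, ∃ ν : Module.End F V, (t : Module.End F V) = 1 + ν ∧ ν * ν = 0 ∧
      Module.rank F (LinearMap.range ν) = Module.rank F V)
include hH hV hν

variable {M C : Type u} [AddCommGroup M] [Module F M] [AddCommGroup C] [Module F C]

/-- The swindle: `GL(Q) × 1 ≤ H`. -/
theorem swindle {Q : Type u} [AddCommGroup Q] [Module F Q]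
    (hQ : Module.rank F Q = Module.rank F V) (hC : Module.rank F C = Module.rank F V)
    (e : (Q × C) ≃ₗ[F] V) (g : Q ≃ₗ[F] Q) :
    ∃ t ∈ H, ∀ q c, (t : V →ₗ[F] V) (e (q, c)) = e (g q, c) := by
  have hS : Module.rank F (ℕ →₀ Q) = Module.rank F V := rank_nat_finsupp hV hQ
  have i : ((ℕ →₀ Q) × ((ℕ →₀ Q) × Q)) ≃ₗ[F] C := LinearEquiv.ofRankEq _ _ (by
    rw [hC]; exact rank_prod_eq hV hS (rank_prod_eq hV hS hQ))
  let e1 : (Q × ((ℕ →₀ Q) × ((ℕ →₀ Q) × Q))) ≃ₗ[F] V :=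
    (LinearEquiv.prodCongr (LinearEquiv.refl F Q) i).trans e
  have he1 : ∀ q s t y, e1 (q, (s, (t, y))) = e (q, i (s, (t, y))) := fun _ _ _ _ => rfl
  -- first diagonal element
  obtain ⟨x, hx, hxe⟩ := diag_mem hH hV hν hS (rank_prod_eq hV hQ hQ)
    ((rot4 F (ℕ →₀ Q) (ℕ →₀ Q) Q Q).trans e1) (hat g).symm
  have hx' : ∀ q s t y, (x : V →ₗ[F] V) (e1 (q, (s, (t, y)))) =
      e1 (q, ((hat g).symm s, (hat g t, y))) := fun q s t y => hxe s t (q, y)
  -- second diagonal element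
  let e2 : ((ℕ →₀ Q) × ((ℕ →₀ Q) × Q)) ≃ₗ[F] V :=
    ((LinearEquiv.prodCongr (jj F Q) (LinearEquiv.refl F _)).trans
      (asc F (ℕ →₀ Q) Q (ℕ →₀ Q) Q)).trans e1
  have he2 : ∀ s t y, e2 (s, (t, y)) = e1 ((jj F Q s).2, ((jj F Q s).1, (t, y))) :=
    fun _ _ _ => rfl
  obtain ⟨z, hz, hze⟩ := diag_mem hH hV hν hS hQ e2 (hat g)
  have hz' : ∀ q s t y, (z : V →ₗ[F] V) (e1 (q, (s, (t, y)))) =
      e1 (g q, (hat g s, ((hat g).symm t, y))) := by
    intro q s t y
    have h1 := hze ((jj F Q).symm (s, q)) t y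
    rw [he2, he2, jj_hat, LinearEquiv.apply_symm_apply] at h1
    exact h1
  refine ⟨z * x, H.mul_mem hz hx, fun q c => ?_⟩
  obtain ⟨⟨s, t, y⟩, rfl⟩ := i.surjective c
  have h1 : ((z * x : LinearMap.GeneralLinearGroup F V) : V →ₗ[F] V) (e (q, i (s, (t, y)))) =
    (z : V →ₗ[F] V) ((x : V →ₗ[F] V) (e1 (q, (s, (t, y))))) := rfl
  rw [h1, hx', hz', LinearEquiv.apply_symm_apply, LinearEquiv.symm_apply_apply, he1]

/-- pointwise stabilisers of large subspaces are contained in `H`. -/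
theorem fix_mem {Q : Type u} [AddCommGroup Q] [Module F Q]
    (hQ : Module.rank F Q = Module.rank F V) (hC : Module.rank F C = Module.rank F V)
    (e : (C × Q) ≃ₗ[F] V) (g : LinearMap.GeneralLinearGroup F V)
    (hg : ∀ c, (g : V →ₗ[F] V) (e (c, 0)) = e (c, 0)) : g ∈ H := by
  let γ : Q →ₗ[F] Q := LinearMap.snd F C Q ∘ₗ e.symm.toLinearMap ∘ₗ (g : V →ₗ[F] V) ∘ₗ
    e.toLinearMap ∘ₗ LinearMap.inr F C Q
  let ν : Q →ₗ[F] C := LinearMap.fst F C Q ∘ₗ e.symm.toLinearMap ∘ₗ (g : V →ₗ[F] V) ∘ₗ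
    e.toLinearMap ∘ₗ LinearMap.inr F C Q
  have hge : ∀ q, (g : V →ₗ[F] V) (e (0, q)) = e (ν q, γ q) := by
    intro q
    have : (ν q, γ q) = e.symm ((g : V →ₗ[F] V) (e (0, q))) := rfl
    rw [this, LinearEquiv.apply_symm_apply]
  have hge2 : ∀ c q, (g : V →ₗ[F] V) (e (c, q)) = e (c + ν q, γ q) := by
    intro c q
    have h1 : ((c, q) : C × Q) = (c, 0) + (0, q) := by simp
    rw [h1, map_add, map_add, hg, hge, ← map_add]
    simp
  have hginj : Function.Injective (g : V →ₗ[F] V) := by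
    intro a b hab
    have := congrArg ((g⁻¹ : LinearMap.GeneralLinearGroup F V) : Module.End F V) hab
    have h1 : ∀ v, ((g⁻¹ : LinearMap.GeneralLinearGroup F V) : Module.End F V)
        ((g : V →ₗ[F] V) v) = v := by
      intro v
      have : (((g⁻¹ : LinearMap.GeneralLinearGroup F V) : Module.End F V) *
        (g : Module.End F V)) v = v := by rw [Units.inv_mul]; rfl
      exact this
    rw [h1, h1] at this
    exact this
  have hgsurj : Function.Surjective (g : V →ₗ[F] V) := by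
    intro v
    refine ⟨((g⁻¹ : LinearMap.GeneralLinearGroup F V) : Module.End F V) v, ?_⟩
    have : ((g : Module.End F V) * ((g⁻¹ : LinearMap.GeneralLinearGroup F V) : Module.End F V)) v
      = v := by rw [Units.mul_inv]; rfl
    exact this
  have hγ : Function.Bijective γ := by
    constructor
    · rw [← LinearMap.ker_eq_bot, Submodule.eq_bot_iff]
      intro q hq
      have h1 : (g : V →ₗ[F] V) (e (-ν q, q)) = (g : V →ₗ[F] V) (e (0, 0)) := by
        rw [hge2, hge, LinearMap.mem_ker.1 hq]; simp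
      exact (Prod.ext_iff.1 (e.injective (hginj h1))).2
    · intro q
      obtain ⟨v, hv⟩ := hgsurj (e (0, q))
      obtain ⟨⟨c, q'⟩, rfl⟩ := e.surjective v
      rw [hge2] at hv
      exact ⟨q', (Prod.ext_iff.1 (e.injective hv)).2⟩
  let G : Q ≃ₗ[F] Q := LinearEquiv.ofBijective γ hγ
  have hG : ∀ q, G q = γ q := fun q => rfl
  -- diagonal part
  obtain ⟨t0, ht0, ht0e⟩ := swindle hH hV hν hQ hC ((LinearEquiv.prodComm F Q C).trans e) G
  have ht0' : ∀ c q, (t0 : V →ₗ[F] V) (e (c, q)) = e (c, γ q) := fun c q => ht0e q c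
  -- unipotent part
  have i : (Q × Q) ≃ₗ[F] C := LinearEquiv.ofRankEq _ _ (by rw [hC]; exact rank_prod_eq hV hQ hQ)
  let f : Q →ₗ[F] Q × Q := i.symm.toLinearMap ∘ₗ ν ∘ₗ G.symm.toLinearMap
  let e3 : (Q × (Q × Q)) ≃ₗ[F] V :=
    ((LinearEquiv.prodAssoc F Q Q Q).symm.trans
      (LinearEquiv.prodCongr i (LinearEquiv.refl F Q))).trans e
  have he3 : ∀ a b q, e3 (a, (b, q)) = e (i (a, b), q) := fun _ _ _ => rfl
  obtain ⟨ta, hta, htae⟩ := elem_mem2 hH hV hν hQ hQ hQ e3 (LinearMap.fst F Q Q ∘ₗ f)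
  obtain ⟨tb, htb, htbe⟩ := elem_mem2 hH hV hν hQ hQ hQ ((flp F Q Q Q).trans e3)
    (LinearMap.snd F Q Q ∘ₗ f)
  have hta' : ∀ a b q, (ta : V →ₗ[F] V) (e (i (a, b), q)) = e (i (a + (f q).1, b), q) :=
    fun a b q => htae a b q
  have htb' : ∀ a b q, (tb : V →ₗ[F] V) (e (i (a, b), q)) = e (i (a, b + (f q).2), q) :=
    fun a b q => htbe b a q
  have hprod : g = tb * ta * t0 := by
    ext1
    apply LinearMap.ext
    intro v
    obtain ⟨⟨c, q⟩, rfl⟩ := e.surjective v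
    obtain ⟨⟨a, b⟩, rfl⟩ := i.surjective c
    have h1 : ((tb * ta * t0 : LinearMap.GeneralLinearGroup F V) : V →ₗ[F] V) (e (i (a, b), q)) =
      (tb : V →ₗ[F] V) ((ta : V →ₗ[F] V) ((t0 : V →ₗ[F] V) (e (i (a, b), q)))) := rfl
    have h2 : (g : V →ₗ[F] V) (e (i (a, b), q)) = e (i (a, b) + ν q, γ q) := hge2 _ _
    have h3 : f (γ q) = i.symm (ν q) := by
      simp only [f, LinearMap.comp_apply, LinearEquiv.coe_coe, ← hG, LinearEquiv.symm_apply_apply]
    have h4 : i (a + (f (γ q)).1, b + (f (γ q)).2) = i (a, b) + ν q := by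
      have : ((a + (f (γ q)).1, b + (f (γ q)).2) : Q × Q) = (a, b) + f (γ q) := rfl
      rw [this, h3, map_add, LinearEquiv.apply_symm_apply]
    rw [h1, ht0', hta', htb', h4]
    exact h2
  rw [hprod]
  exact H.mul_mem (H.mul_mem htb hta) ht0

/-- `H = GL(V)` as soon as `H` contains `1 + ν` with `ν² = 0` of full rank. -/
theorem main_sq : H = ⊤ := by
  rw [eq_top_iff]
  intro g _
  obtain ⟨e⟩ := exists_double (M := V) (M' := V) (V := V) hV rfl rfl
  have hinj : Function.Injective (e.toLinearMap ∘ₗ LinearMap.inl F V V) :=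
    e.injective.comp LinearMap.inl_injective
  let ge : V ≃ₗ[F] V := LinearMap.GeneralLinearGroup.toLinearEquiv g
  have hge : ∀ v, ge v = (g : V →ₗ[F] V) v := fun v => rfl
  have hcod := rank_quot_split e
  have hcod2 := rank_quot_split (e.trans ge)
  obtain ⟨h, hh, hhe⟩ := move hH hV (M := V) rfl (e.toLinearMap ∘ₗ LinearMap.inl F V V)
    ((e.trans ge).toLinearMap ∘ₗ LinearMap.inl F V V) hinj
    ((e.trans ge).injective.comp LinearMap.inl_injective) hcod hcod2
  have h1 : ∀ c, (h : V →ₗ[F] V) (e (c, 0)) = (g : V →ₗ[F] V) (e (c, 0)) := fun c => hhe c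
  have h2 : h⁻¹ * g ∈ H := by
    apply fix_mem hH hV hν (C := V) (Q := V) rfl rfl e
    intro c
    have h3 : ((h⁻¹ * g : LinearMap.GeneralLinearGroup F V) : V →ₗ[F] V) (e (c, 0)) =
      ((h⁻¹ : LinearMap.GeneralLinearGroup F V) : Module.End F V)
        ((g : V →ₗ[F] V) (e (c, 0))) := rfl
    rw [h3, ← h1]
    have h4 : (((h⁻¹ : LinearMap.GeneralLinearGroup F V) : Module.End F V) *
        (h : Module.End F V)) (e (c, 0)) = e (c, 0) := by rw [Units.inv_mul]; rfl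
    exact h4
  have h5 : g = h * (h⁻¹ * g) := by group
  rw [h5]
  exact H.mul_mem hh h2

end

/-- **Criterion.** A group inducing `GL(U)` on all large `U` is `GL(V)` iff it contains an element `h`
such that `h - a` has full rank and full corank for some `a ≠ 0`. -/
theorem criterion {H : Subgroup (LinearMap.GeneralLinearGroup F V)} (hH : Star H)
    (hV : ℵ₀ ≤ Module.rank F V) :
    H = ⊤ ↔ ∃ h ∈ H, ∃ a : F, a ≠ 0 ∧
      Module.rank F (LinearMap.range ((h : V →ₗ[F] V) - a • LinearMap.id)) = Module.rank F V ∧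
      Module.rank F (V ⧸ LinearMap.range ((h : V →ₗ[F] V) - a • LinearMap.id)) =
        Module.rank F V := by
  constructor
  · intro htop
    obtain ⟨e⟩ := exists_double (M := V) (M' := V) (V := V) hV rfl rfl
    let t : (V × V) ≃ₗ[F] (V × V) :=
      { toFun := fun p => (p.1 + p.2, p.2)
        invFun := fun p => (p.1 - p.2, p.2)
        map_add' := by intro p q; ext <;> simp [add_add_add_comm]
        map_smul' := by intro c p; ext <;> simp
        left_inv := by intro p; simp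
        right_inv := by intro p; simp }
    let k : LinearMap.GeneralLinearGroup F V :=
      LinearMap.GeneralLinearGroup.ofLinearEquiv ((e.symm.trans t).trans e)
    have hk : ∀ p, (k : V →ₗ[F] V) (e p) = e (p.1 + p.2, p.2) := by
      intro p
      have : (k : V →ₗ[F] V) (e p) = e (t (e.symm (e p))) := rfl
      rw [this, LinearEquiv.symm_apply_apply]
      rfl
    have hk2 : ∀ p, ((k : V →ₗ[F] V) - (1 : F) • (LinearMap.id : V →ₗ[F] V)) (e p) =
        e (p.2, 0) := by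
      intro p
      rw [LinearMap.sub_apply, hk, one_smul, LinearMap.id_apply, ← map_sub]
      congr 1
      ext <;> simp
    have hr : LinearMap.range ((k : V →ₗ[F] V) - (1 : F) • LinearMap.id) =
        LinearMap.range (e.toLinearMap ∘ₗ LinearMap.inl F V V) := by
      ext v
      constructor
      · rintro ⟨w, rfl⟩
        obtain ⟨p, rfl⟩ := e.surjective w
        exact ⟨p.2, (hk2 p).symm⟩
      · rintro ⟨w, rfl⟩
        exact ⟨e (0, w), hk2 (0, w)⟩
    refine ⟨k, by rw [htop]; trivial, 1, one_ne_zero, ?_, ?_⟩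
    · rw [hr]
      exact (LinearEquiv.ofInjective (e.toLinearMap ∘ₗ LinearMap.inl F V V)
        (e.injective.comp LinearMap.inl_injective)).rank_eq.symm
    · rw [hr, rank_quot_split]
  · rintro ⟨h, hh, a, ha, hrk, hcod⟩
    obtain ⟨n, hn⟩ : ∃ n : Module.End F V, n = a⁻¹ • (h : Module.End F V) - 1 := ⟨_, rfl⟩
    have hr : LinearMap.range n =
        LinearMap.range ((h : V →ₗ[F] V) - a • LinearMap.id) := by
      have h1 : ∀ v, n v = a⁻¹ • (((h : V →ₗ[F] V) - a • (LinearMap.id : V →ₗ[F] V)) v) := by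
        intro v
        rw [hn, LinearMap.sub_apply, LinearMap.sub_apply, LinearMap.smul_apply,
          LinearMap.smul_apply, smul_sub, smul_smul, inv_mul_cancel₀ ha, one_smul]
        rfl
      ext v
      constructor
      · rintro ⟨w, rfl⟩
        exact ⟨a⁻¹ • w, by rw [h1, map_smul]⟩
      · rintro ⟨w, rfl⟩
        exact ⟨a • w, by rw [h1, map_smul, smul_smul, inv_mul_cancel₀ ha, one_smul]⟩
    exact main_sq hH hV (exists_sq_zero hH hV hh ha hn (by rw [hr, hrk]) (by rw [hr, hcod]))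

/-- **Large fields.** -/
theorem main {H : Subgroup (LinearMap.GeneralLinearGroup F V)} (hH : Star H)
    (hV : ℵ₀ ≤ Module.rank F V) (hF : Module.rank F V < #F) : H = ⊤ := by
  obtain ⟨h, hh, a, ha, n, hn, hinj, hcod⟩ := exists_shift hH hV hF
  exact main_sq hH hV (exists_sq_zero hH hV hh ha hn
    (LinearEquiv.ofInjective n hinj).rank_eq.symm hcod)

end Pool.Agent.H61.GLU
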