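import Pool.Agent.H61.GLU.Basic

open Cardinal Module

universe u

namespace Pool.Agent.H61.GLU

variable {F : Type u} [Field F]
variable {V : Type u} [AddCommGroup V] [Module F V]

/-- There are two vectors linearly independent modulo `A`. -/
def Two (A : Submodule F V) : Prop :=
  ∃ x y : V, ∀ α β : F, α • x + β • y ∈ A → α = 0 ∧ β = 0

theorem Two.exists_notMem {A : Submodule F V} (h : Two A) : ∃ x, x ∉ A := by
  obtain ⟨x, y, h⟩ := h
  refine ⟨x, fun hx => ?_⟩
  exact one_ne_zero (h 1 0 (by simpa using hx)).1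

theorem gen_two {A B : Submodule F V} (hA : ∃ x, x ∉ A) (hB : ∃ x, x ∉ B) (k : V →ₗ[F] V)
    (hk : Function.Surjective k) : ∃ z, z ∉ A ∧ k z ∉ B := by
  obtain ⟨x, hx⟩ := hA
  obtain ⟨y', hy⟩ := hB
  obtain ⟨y, rfl⟩ := hk y'
  by_cases h1 : k x ∈ B
  · by_cases h2 : y ∈ A
    · refine ⟨x + y, ?_, ?_⟩
      · intro h; exact hx (by simpa using A.sub_mem h h2)
      · intro h
        rw [map_add] at h
        exact hy (by simpa using B.sub_mem h h1)
    · exact ⟨y, h2, hy⟩
  · exact ⟨x, hx, h1⟩

theorem gen_same {A : Submodule F V} (hA : Two A) (k : V →ₗ[F] V)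
    (hk : ∀ (c : F) (v : V), ∃ w, k w = c • w + v) :
    ∃ z, ∀ α β : F, α • z + β • k z ∈ A → α = 0 ∧ β = 0 := by
  by_contra hcon
  push Not at hcon
  -- every vector outside A is an eigenvector modulo A
  have h1 : ∀ z, z ∉ A → ∃ c : F, k z - c • z ∈ A := by
    intro z hz
    obtain ⟨α, β, hm, hne⟩ := hcon z
    have hβ : β ≠ 0 := by
      intro hβ
      rw [hβ, zero_smul, add_zero] at hm
      have hα : α = 0 := by
        by_contra hα
        exact hz ((A.smul_mem_iff hα).1 hm)
      exact hne hα hβ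
    refine ⟨-(β⁻¹ * α), ?_⟩
    have : k z - (-(β⁻¹ * α)) • z = β⁻¹ • (α • z + β • k z) := by
      rw [smul_add, smul_smul, smul_smul, inv_mul_cancel₀ hβ, one_smul, neg_smul, sub_neg_eq_add,
        add_comm]
    rw [this]
    exact A.smul_mem _ hm
  obtain ⟨x, y, hxy⟩ := hA
  -- independence implies same eigenvalue
  have h2 : ∀ u v : V, (∀ α β : F, α • u + β • v ∈ A → α = 0 ∧ β = 0) → ∀ c d : F,
      k u - c • u ∈ A → k v - d • v ∈ A → c = d := by
    intro u v huv c d hc hd
    have huv' : u + v ∉ A := by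
      intro h
      exact one_ne_zero (huv 1 1 (by simpa using h)).1
    obtain ⟨e, he⟩ := h1 _ huv'
    have h3 : (e - c) • u + (e - d) • v ∈ A := by
      have h4 := A.sub_mem (A.add_mem hc hd) he
      have h5 : k u - c • u + (k v - d • v) - (k (u + v) - e • (u + v)) =
          (e - c) • u + (e - d) • v := by
        rw [map_add, smul_add, sub_smul, sub_smul]; abel
      rw [h5] at h4
      exact h4
    obtain ⟨h6, h7⟩ := huv _ _ h3
    rw [sub_eq_zero] at h6 h7
    rw [← h6, h7]
  have hxA : x ∉ A := fun h => one_ne_zero (hxy 1 0 (by simpa using h)).1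
  have hyA : y ∉ A := fun h => one_ne_zero (hxy 0 1 (by simpa using h)).2
  obtain ⟨c, hc⟩ := h1 x hxA
  obtain ⟨c', hc'⟩ := h1 y hyA
  have hcc : c = c' := h2 x y hxy c c' hc hc'
  subst hcc
  -- all vectors outside A have eigenvalue c
  have h3 : ∀ z, z ∉ A → k z - c • z ∈ A := by
    intro z hz
    obtain ⟨d, hd⟩ := h1 z hz
    by_cases hxz : ∀ α β : F, α • x + β • z ∈ A → α = 0 ∧ β = 0
    · rw [h2 x z hxz c d hc hd]; exact hd
    · by_cases hyz : ∀ α β : F, α • y + β • z ∈ A → α = 0 ∧ β = 0
      · rw [h2 y z hyz c d hc' hd]; exact hd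
      · exfalso
        push Not at hxz hyz
        obtain ⟨a, b, hab, hab'⟩ := hxz
        obtain ⟨a', b', hab2, hab2'⟩ := hyz
        have hb : b ≠ 0 := by
          intro hb
          rw [hb, zero_smul, add_zero] at hab
          have ha : a = 0 := by
            by_contra ha
            exact hxA ((A.smul_mem_iff ha).1 hab)
          exact hab' ha hb
        have hb' : b' ≠ 0 := by
          intro hb
          rw [hb, zero_smul, add_zero] at hab2
          have ha : a' = 0 := by
            by_contra ha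
            exact hyA ((A.smul_mem_iff ha).1 hab2)
          exact hab2' ha hb
        have h4 : (b' * a) • x + (-(b * a')) • y ∈ A := by
          have h5 := A.sub_mem (A.smul_mem b' hab) (A.smul_mem b hab2)
          have h6 : b' • (a • x + b • z) - b • (a' • y + b' • z) =
              (b' * a) • x + (-(b * a')) • y := by
            rw [smul_add, smul_add, smul_smul, smul_smul, smul_smul, smul_smul, neg_smul,
              mul_comm b b']
            abel
          rw [h6] at h5
          exact h5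
        obtain ⟨h7, _⟩ := hxy _ _ h4
        have ha : a = 0 := (mul_eq_zero.1 h7).resolve_left hb'
        rw [ha, zero_smul, zero_add] at hab
        exact hz ((A.smul_mem_iff hb).1 hab)
  have h4 : ∀ z, k z - c • z ∈ A := by
    intro z
    by_cases hz : z ∈ A
    · have hzx : z + x ∉ A := fun h => hxA (by simpa using A.sub_mem h hz)
      have h5 := A.sub_mem (h3 _ hzx) hc
      have h6 : k (z + x) - c • (z + x) - (k x - c • x) = k z - c • z := by
        rw [map_add, smul_add]; abel
      rw [h6] at h5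
      exact h5
    · exact h3 z hz
  obtain ⟨w, hw⟩ := hk c x
  have h5 : k w - c • w = x := by rw [hw]; abel
  exact hxA (h5 ▸ h4 w)

/-- tagged vectors: domain side (`true`) or range side (`false`). -/
def tag (b : Bool) (x : V) : V × V := if b then (x, 0) else (0, x)

theorem tag_true (x : V) : tag true x = (x, 0) := rfl
theorem tag_false (x : V) : tag false x = (0, x) := rfl

theorem tag_add (b : Bool) (x y : V) : tag b (x + y) = tag b x + tag b y := by
  cases b <;> simp [tag]

theorem tag_smul (b : Bool) (c : F) (x : V) : tag b (c • x) = c • tag b x := by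
  cases b <;> simp [tag]

theorem tag_sub (b : Bool) (x y : V) : tag b (x - y) = tag b x - tag b y := by
  cases b <;> simp [tag]

/-- independence of two vectors modulo a subspace. -/
def Free2 {W : Type u} [AddCommGroup W] [Module F W] (A : Submodule F W) (p q : W) : Prop :=
  ∀ α β : F, α • p + β • q ∈ A → α = 0 ∧ β = 0

theorem gen {A B : Submodule F V} (hA : Two A) (hB : Two B) (s s' : Bool) (k : V →ₗ[F] V)
    (hk : Function.Surjective k)
    (hk' : s = s' → ∀ (c : F) (v : V), ∃ w, k w = c • w + v) :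
    ∃ z, Free2 (A.prod B) (tag s z) (tag s' (k z)) := by
  cases s <;> cases s'
  · obtain ⟨z, hz⟩ := gen_same hB k (hk' rfl)
    refine ⟨z, fun α β h => hz α β ?_⟩
    rw [tag_false, tag_false, Submodule.mem_prod] at h
    simpa using h.2
  · obtain ⟨z, hz, hz'⟩ := gen_two hB.exists_notMem hA.exists_notMem k hk
    refine ⟨z, fun α β h => ?_⟩
    rw [tag_false, tag_true, Submodule.mem_prod] at h
    have h1 : β • k z ∈ A := by simpa using h.1
    have h2 : α • z ∈ B := by simpa using h.2
    constructor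
    · by_contra hα; exact hz ((B.smul_mem_iff hα).1 h2)
    · by_contra hβ; exact hz' ((A.smul_mem_iff hβ).1 h1)
  · obtain ⟨z, hz, hz'⟩ := gen_two hA.exists_notMem hB.exists_notMem k hk
    refine ⟨z, fun α β h => ?_⟩
    rw [tag_false, tag_true, Submodule.mem_prod] at h
    have h1 : β • k z ∈ B := by simpa using h.2
    have h2 : α • z ∈ A := by simpa using h.1
    constructor
    · by_contra hα; exact hz ((A.smul_mem_iff hα).1 h2)
    · by_contra hβ; exact hz' ((B.smul_mem_iff hβ).1 h1)
  · obtain ⟨z, hz⟩ := gen_same hA k (hk' rfl)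
    refine ⟨z, fun α β h => hz α β ?_⟩
    rw [tag_true, tag_true, Submodule.mem_prod] at h
    simpa using h.1

/-- domain and range of a relation -/
def dom (Γ : Submodule F (V × V)) : Submodule F V := Γ.map (LinearMap.fst F V V)
/-- range -/
def ran (Γ : Submodule F (V × V)) : Submodule F V := Γ.map (LinearMap.snd F V V)

theorem mem_dom {Γ : Submodule F (V × V)} {p : V × V} (h : p ∈ Γ) : p.1 ∈ dom Γ := ⟨p, h, rfl⟩
theorem mem_ran {Γ : Submodule F (V × V)} {p : V × V} (h : p ∈ Γ) : p.2 ∈ ran Γ := ⟨p, h, rfl⟩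

/-- `Γ` is the graph of a partial injective linear map. -/
def PI (Γ : Submodule F (V × V)) : Prop := ∀ p ∈ Γ, (p.1 = 0 ↔ p.2 = 0)

theorem dom_sup_span (Γ : Submodule F (V × V)) (S : Set (V × V)) :
    dom (Γ ⊔ Submodule.span F S) = dom Γ ⊔ Submodule.span F (Prod.fst '' S) := by
  rw [dom, Submodule.map_sup, Submodule.map_span]
  rfl

theorem ran_sup_span (Γ : Submodule F (V × V)) (S : Set (V × V)) :
    ran (Γ ⊔ Submodule.span F S) = ran Γ ⊔ Submodule.span F (Prod.snd '' S) := by
  rw [ran, Submodule.map_sup, Submodule.map_span]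
  rfl

/-- infinite codimension -/
def Inf (A : Submodule F V) : Prop := ℵ₀ ≤ Module.rank F (V ⧸ A)

theorem Inf.two {A : Submodule F V} (h : Inf A) : Two A := by
  have h1 : 1 < Module.rank F (V ⧸ A) := lt_of_lt_of_le Cardinal.one_lt_aleph0 h
  have : Nontrivial (V ⧸ A) := rank_pos_iff_nontrivial.1 (lt_trans zero_lt_one h1)
  obtain ⟨x, hx⟩ := exists_ne (0 : V ⧸ A)
  obtain ⟨y, hy⟩ := exists_linearIndependent_pair_of_one_lt_rank h1 hx
  obtain ⟨x, rfl⟩ := A.mkQ_surjective x
  obtain ⟨y, rfl⟩ := A.mkQ_surjective y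
  refine ⟨x, y, fun α β h => ?_⟩
  rw [LinearIndependent.pair_iff] at hy
  apply hy
  rw [← map_smul, ← map_smul, ← map_add]
  exact (Submodule.Quotient.mk_eq_zero _).2 h

theorem rank_quot_le_add (A B : Submodule F V) :
    Module.rank F (V ⧸ A) ≤ Module.rank F (V ⧸ (A ⊔ B)) + Module.rank F B := by
  let q : (V ⧸ A) →ₗ[F] (V ⧸ (A ⊔ B)) := Submodule.factor le_sup_left
  have h1 := LinearMap.rank_range_add_rank_ker q
  rw [← h1]
  refine add_le_add (Submodule.rank_le _) ?_
  have h2 : LinearMap.ker q ≤ B.map A.mkQ := by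
    intro x hx
    obtain ⟨v, rfl⟩ := A.mkQ_surjective x
    have h3 : (A ⊔ B).mkQ v = 0 := hx
    have h4 : v ∈ A ⊔ B := (Submodule.Quotient.mk_eq_zero _).1 h3
    obtain ⟨a, ha, b, hb, rfl⟩ := Submodule.mem_sup.1 h4
    refine ⟨b, hb, ?_⟩
    rw [map_add]
    have : A.mkQ a = 0 := (Submodule.Quotient.mk_eq_zero _).2 ha
    rw [this, zero_add]
  refine (Submodule.rank_mono h2).trans ?_
  exact rank_map_le A.mkQ B

theorem Inf.sup_span {A : Submodule F V} (h : Inf A) {S : Set V} (hS : S.Finite) :
    Inf (A ⊔ Submodule.span F S) := by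
  by_contra hcon
  rw [Inf, not_le] at hcon
  have h1 := rank_quot_le_add A (Submodule.span F S)
  have h2 : Module.rank F (Submodule.span F S) < ℵ₀ :=
    lt_of_le_of_lt (rank_span_le S) (Cardinal.lt_aleph0_iff_set_finite.2 hS)
  exact absurd (h.trans h1) (not_le.2 (Cardinal.add_lt_aleph0 hcon h2))

/-- adding a pair -/
theorem PI.add {Γ : Submodule F (V × V)} (h : PI Γ) {w : V × V} (h1 : w.1 ∉ dom Γ)
    (h2 : w.2 ∉ ran Γ) : PI (Γ ⊔ Submodule.span F {w}) := by
  intro p hp
  obtain ⟨g, hg, c, hc, rfl⟩ := Submodule.mem_sup.1 hp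
  obtain ⟨a, rfl⟩ := Submodule.mem_span_singleton.1 hc
  have hg1 := mem_dom hg
  have hg2 := mem_ran hg
  constructor
  · intro h3
    have ha : a = 0 := by
      by_contra ha
      apply h1
      rw [← (dom Γ).smul_mem_iff ha]
      have h4 : a • w.1 = - g.1 := by
        rw [eq_neg_iff_add_eq_zero, add_comm]; exact h3
      rw [h4]
      exact (dom Γ).neg_mem hg1
    rw [ha, zero_smul, add_zero] at h3 ⊢
    exact (h g hg).1 h3
  · intro h3
    have ha : a = 0 := by
      by_contra ha
      apply h2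
      rw [← (ran Γ).smul_mem_iff ha]
      have h4 : a • w.2 = - g.2 := by
        rw [eq_neg_iff_add_eq_zero, add_comm]; exact h3
      rw [h4]
      exact (ran Γ).neg_mem hg2
    rw [ha, zero_smul, add_zero] at h3 ⊢
    exact (h g hg).2 h3

end Pool.Agent.H61.GLU
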