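import Pool.Agent.H61.GLU.Path

open Cardinal Module

universe u

namespace Pool.Agent.H61.GLU

variable {F : Type u} [Field F]
variable {V : Type u} [AddCommGroup V] [Module F V]

/-- `Path Γ L y y'`: the word `L` (first letter acting first), evaluated with `h` replaced by the
relation `Γ`, leads from `y` to `y'`; a letter `(k, ε)` stands for `k * h ^ ±1`. -/
def Path (Γ : Submodule F (V × V)) :
    List (LinearMap.GeneralLinearGroup F V × Bool) → V → V → Prop
  | [], y, y' => y = y'
  | (k, ε) :: L, y, y' => ∃ z, tag ε y + tag (!ε) z ∈ Γ ∧ Path Γ L ((k : V →ₗ[F] V) z) y'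

theorem Path.mono {Γ Γ' : Submodule F (V × V)} (h : Γ ≤ Γ') :
    ∀ {L : List (LinearMap.GeneralLinearGroup F V × Bool)} {y y' : V},
      Path Γ L y y' → Path Γ' L y y'
  | [], _, _, hp => hp
  | (_, _) :: _, _, _, ⟨z, hz, hp⟩ => ⟨z, h hz, Path.mono h hp⟩

/-- `k - a` is surjective for all `a ≠ 0`. -/
def SurjL (k : LinearMap.GeneralLinearGroup F V) : Prop :=
  ∀ a : F, a ≠ 0 → ∀ v, ∃ w, (k : V →ₗ[F] V) w = a • w + v

/-- reduced words (no cyclic condition). -/
def Red : List (LinearMap.GeneralLinearGroup F V × Bool) → Prop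
  | [] => True
  | [_] => True
  | p :: q :: L => (q.2 ≠ p.2 → p.1 ≠ 1) ∧ Red (q :: L)

theorem gl_surj (k : LinearMap.GeneralLinearGroup F V) : Function.Surjective (k : V →ₗ[F] V) := by
  intro v
  refine ⟨((k⁻¹ : LinearMap.GeneralLinearGroup F V) : Module.End F V) v, ?_⟩
  have : ((k : Module.End F V) * ((k⁻¹ : LinearMap.GeneralLinearGroup F V) : Module.End F V)) v
    = v := by rw [Units.mul_inv]; rfl
  exact this

theorem SurjL.all {k : LinearMap.GeneralLinearGroup F V} (h : SurjL k) :
    ∀ (c : F) (v : V), ∃ w, (k : V →ₗ[F] V) w = c • w + v := by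
  intro c v
  by_cases hc : c = 0
  · obtain ⟨w, hw⟩ := gl_surj k v
    exact ⟨w, by rw [hw, hc]; simp⟩
  · exact h c hc v

theorem free_left {A B : Submodule F V} {ε : Bool} {y z : V}
    (h : Free2 (A.prod B) (tag ε y) (tag (!ε) z)) :
    (tag ε y + tag (!ε) z).1 ∉ A ∧ (tag ε y + tag (!ε) z).2 ∉ B := by
  cases ε
  · constructor
    · intro h1
      refine one_ne_zero (h 0 1 ?_).2
      rw [Submodule.mem_prod]
      simp only [tag] at h1 ⊢
      simpa using h1
    · intro h1
      refine one_ne_zero (h 1 0 ?_).1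
      rw [Submodule.mem_prod]
      simp only [tag] at h1 ⊢
      simpa using h1
  · constructor
    · intro h1
      refine one_ne_zero (h 1 0 ?_).1
      rw [Submodule.mem_prod]
      simp only [tag] at h1 ⊢
      simpa using h1
    · intro h1
      refine one_ne_zero (h 0 1 ?_).2
      rw [Submodule.mem_prod]
      simp only [tag] at h1 ⊢
      simpa using h1

theorem tag_mem_prod {A B : Submodule F V} {b : Bool} {x : V} (h1 : x ∈ A) (h2 : x ∈ B) :
    tag b x ∈ A.prod B := by
  cases b
  · rw [tag_false, Submodule.mem_prod]; exact ⟨A.zero_mem, h2⟩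
  · rw [tag_true, Submodule.mem_prod]; exact ⟨h1, B.zero_mem⟩

theorem path_lemma : ∀ (L : List (LinearMap.GeneralLinearGroup F V × Bool))
    (p : LinearMap.GeneralLinearGroup F V × Bool) (Γ : Submodule F (V × V)) (y zs : V),
    PI Γ → Inf (dom Γ) → Inf (ran Γ) → (∀ q ∈ p :: L, q.1 ≠ 1 → SurjL q.1) → Red (p :: L) →
    Free2 ((dom Γ).prod (ran Γ)) (tag p.2 y)
      (tag (!((p :: L).getLast (List.cons_ne_nil _ _)).2) zs) →
    ∃ E : Set (V × V), E.Finite ∧ PI (Γ ⊔ Submodule.span F E) ∧
      Path (Γ ⊔ Submodule.span F E) (p :: L) y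
        ((((p :: L).getLast (List.cons_ne_nil _ _)).1 : V →ₗ[F] V) zs) := by
  intro L
  induction L with
  | nil =>
    rintro ⟨k, ε⟩ Γ y zs hΓ _ _ _ _ hfree
    simp only [List.getLast_singleton] at hfree ⊢
    obtain ⟨h1, h2⟩ := free_left hfree
    refine ⟨{tag ε y + tag (!ε) zs}, Set.finite_singleton _, hΓ.add h1 h2, zs, ?_, rfl⟩
    exact Submodule.mem_sup_right (Submodule.mem_span_singleton_self _)
  | cons q L ih =>
    rintro ⟨k, ε⟩ Γ y zs hΓ hd hr hS hRed hfree
    rw [List.getLast_cons (List.cons_ne_nil _ _)] at hfree ⊢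
    obtain ⟨last, hlast⟩ : ∃ last, last = (q :: L).getLast (List.cons_ne_nil _ _) := ⟨_, rfl⟩
    rw [← hlast] at hfree ⊢
    -- enlarged spaces
    set A := dom Γ ⊔ Submodule.span F {y, zs} with hA
    set B := ran Γ ⊔ Submodule.span F {y, zs} with hB
    have hfin : ({y, zs} : Set V).Finite := by simp
    have hA' : Two A := (hd.sup_span hfin).two
    have hB' : Two B := (hr.sup_span hfin).two
    obtain ⟨z, hz⟩ := gen hA' hB' (!ε) q.2 (k : V →ₗ[F] V) (gl_surj k) (by
      intro he
      apply SurjL.all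
      apply hS (k, ε) (by simp)
      apply hRed.1
      intro h
      rw [h] at he
      cases ε <;> simp at he)
    have hyA : y ∈ A := Submodule.mem_sup_right (Submodule.subset_span (by simp))
    have hyB : y ∈ B := Submodule.mem_sup_right (Submodule.subset_span (by simp))
    have hzA : zs ∈ A := Submodule.mem_sup_right (Submodule.subset_span (by simp))
    have hzB : zs ∈ B := Submodule.mem_sup_right (Submodule.subset_span (by simp))
    have hle : (dom Γ).prod (ran Γ) ≤ A.prod B := Submodule.prod_mono le_sup_left le_sup_left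
    -- the pair (y, z) can be added
    have hyz : Free2 ((dom Γ).prod (ran Γ)) (tag ε y) (tag (!ε) z) := by
      intro α β h
      have hβ : β = 0 := by
        refine (hz β 0 ?_).1
        have h1 : β • tag (!ε) z + (0 : F) • tag q.2 ((k : V →ₗ[F] V) z) =
          (α • tag ε y + β • tag (!ε) z) - α • tag ε y := by
          rw [zero_smul]; abel
        rw [h1]
        exact Submodule.sub_mem _ (hle h) (Submodule.smul_mem _ _ (tag_mem_prod hyA hyB))
      refine ⟨?_, hβ⟩
      refine (hfree α 0 ?_).1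
      rw [hβ, zero_smul] at h
      rw [zero_smul]; exact h
    obtain ⟨g1, g2⟩ := free_left hyz
    set w : V × V := tag ε y + tag (!ε) z with hw
    set Γ' := Γ ⊔ Submodule.span F {w} with hΓ'
    have hPI : PI Γ' := hΓ.add g1 g2
    have hd' : Inf (dom Γ') := by
      rw [hΓ', dom_sup_span]
      exact hd.sup_span ((Set.finite_singleton _).image _)
    have hr' : Inf (ran Γ') := by
      rw [hΓ', ran_sup_span]
      exact hr.sup_span ((Set.finite_singleton _).image _)
    -- the spaces of Γ'
    have hsub : (dom Γ').prod (ran Γ') ≤ (dom Γ).prod (ran Γ) ⊔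
        Submodule.span F {tag ε y, tag (!ε) z} := by
      rintro ⟨a, b⟩ hab
      rw [Submodule.mem_prod] at hab
      obtain ⟨ha, hb⟩ := hab
      simp only at ha hb
      rw [hΓ', dom_sup_span, Set.image_singleton] at ha
      rw [hΓ', ran_sup_span, Set.image_singleton] at hb
      obtain ⟨a1, ha1, a2, ha2, rfl⟩ := Submodule.mem_sup.1 ha
      obtain ⟨b1, hb1, b2, hb2, rfl⟩ := Submodule.mem_sup.1 hb
      obtain ⟨c, rfl⟩ := Submodule.mem_span_singleton.1 ha2
      obtain ⟨d, rfl⟩ := Submodule.mem_span_singleton.1 hb2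
      have hsplit : (a1 + c • w.1, b1 + d • w.2) =
          ((a1, b1) : V × V) + (c • (w.1, (0 : V)) + d • ((0 : V), w.2)) := by
        simp
      rw [hsplit]
      apply Submodule.add_mem_sup
      · rw [Submodule.mem_prod]; exact ⟨ha1, hb1⟩
      · rw [Submodule.mem_span_pair]
        cases ε
        · refine ⟨d, c, ?_⟩
          simp [hw, tag]
        · refine ⟨c, d, ?_⟩
          simp [hw, tag]
    have hfree' : Free2 ((dom Γ').prod (ran Γ')) (tag q.2 ((k : V →ₗ[F] V) z))
        (tag (!last.2) zs) := by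
      intro α β h
      obtain ⟨m, hm, s, hs, hms⟩ := Submodule.mem_sup.1 (hsub h)
      obtain ⟨γ, δ, rfl⟩ := Submodule.mem_span_pair.1 hs
      have h1 : (-δ) • tag (!ε) z + α • tag q.2 ((k : V →ₗ[F] V) z) ∈ A.prod B := by
        have h2 : (-δ) • tag (!ε) z + α • tag q.2 ((k : V →ₗ[F] V) z) =
          m + γ • tag ε y - β • tag (!last.2) zs := by
          rw [neg_smul]
          have h3 : α • tag q.2 ((k : V →ₗ[F] V) z) =
            m + (γ • tag ε y + δ • tag (!ε) z) - β • tag (!last.2) zs := by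
            rw [hms]; abel
          rw [h3]; abel
        rw [h2]
        exact Submodule.sub_mem _ (Submodule.add_mem _ (hle hm)
          (Submodule.smul_mem _ _ (tag_mem_prod hyA hyB)))
          (Submodule.smul_mem _ _ (tag_mem_prod hzA hzB))
      obtain ⟨hδ, hα⟩ := hz _ _ h1
      rw [neg_eq_zero] at hδ
      refine ⟨hα, ?_⟩
      refine (hfree (-γ) β ?_).2
      have h4 : (-γ) • tag ε y + β • tag (!last.2) zs = m := by
        rw [hα, hδ, zero_smul, zero_smul, zero_add, add_zero] at hms
        rw [← hms, neg_smul]; abel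
      rw [h4]
      exact hm
    rw [hlast] at hfree'
    obtain ⟨E, hE, hPE, hpath⟩ := ih q Γ' ((k : V →ₗ[F] V) z) zs hPI hd' hr'
      (fun r hr => hS r (List.mem_cons_of_mem _ hr)) hRed.2 hfree'
    rw [← hlast] at hpath
    have heq : Γ' ⊔ Submodule.span F E = Γ ⊔ Submodule.span F ({w} ∪ E) := by
      rw [Submodule.span_union, hΓ', sup_assoc]
    rw [heq] at hPE hpath
    refine ⟨{w} ∪ E, (Set.finite_singleton _).union hE, hPE, z, ?_, hpath⟩
    exact Submodule.mem_sup_right (Submodule.subset_span (Or.inl hw.symm))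

/-- The key extension step for a cyclically reduced word. -/
theorem cyc_step (p : LinearMap.GeneralLinearGroup F V × Bool)
    (L : List (LinearMap.GeneralLinearGroup F V × Bool)) (Γ : Submodule F (V × V))
    (hΓ : PI Γ) (hd : Inf (dom Γ)) (hr : Inf (ran Γ))
    (hS : ∀ q ∈ p :: L, q.1 ≠ 1 → SurjL q.1) (hRed : Red (p :: L))
    (hcyc : p.2 ≠ ((p :: L).getLast (List.cons_ne_nil _ _)).2 →
      ((p :: L).getLast (List.cons_ne_nil _ _)).1 ≠ 1) (a : F) (ha : a ≠ 0) (v : V) :
    ∃ E : Set (V × V), E.Finite ∧ PI (Γ ⊔ Submodule.span F E) ∧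
      ∃ y, Path (Γ ⊔ Submodule.span F E) (p :: L) y (a • y + v) := by
  obtain ⟨last, hlast⟩ : ∃ last, last = (p :: L).getLast (List.cons_ne_nil _ _) := ⟨_, rfl⟩
  rw [← hlast] at hcyc
  set A := dom Γ ⊔ Submodule.span F {v} with hA
  set B := ran Γ ⊔ Submodule.span F {v} with hB
  have hA' : Two A := (hd.sup_span (Set.finite_singleton v)).two
  have hB' : Two B := (hr.sup_span (Set.finite_singleton v)).two
  obtain ⟨z, hz⟩ := gen hA' hB' (!last.2) p.2 (last.1 : V →ₗ[F] V) (gl_surj _) (by
    intro he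
    apply SurjL.all
    apply hS last (by rw [hlast]; exact List.getLast_mem _)
    apply hcyc
    intro h
    rw [h] at he
    cases h9 : last.2 <;> rw [h9] at he <;> simp at he)
  have hvA : v ∈ A := Submodule.mem_sup_right (Submodule.subset_span (by simp))
  have hvB : v ∈ B := Submodule.mem_sup_right (Submodule.subset_span (by simp))
  have hle : (dom Γ).prod (ran Γ) ≤ A.prod B := Submodule.prod_mono le_sup_left le_sup_left
  set y : V := a⁻¹ • ((last.1 : V →ₗ[F] V) z - v) with hy
  have hfree : Free2 ((dom Γ).prod (ran Γ)) (tag p.2 y) (tag (!last.2) z) := by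
    intro α β h
    have h1 : β • tag (!last.2) z + (α * a⁻¹) • tag p.2 ((last.1 : V →ₗ[F] V) z) ∈ A.prod B := by
      have h2 : β • tag (!last.2) z + (α * a⁻¹) • tag p.2 ((last.1 : V →ₗ[F] V) z) =
        (α • tag p.2 y + β • tag (!last.2) z) + (α * a⁻¹) • tag p.2 v := by
        rw [hy, tag_smul, tag_sub, smul_smul, smul_sub]; abel
      rw [h2]
      exact Submodule.add_mem _ (hle h) (Submodule.smul_mem _ _ (tag_mem_prod hvA hvB))
    obtain ⟨h3, h4⟩ := hz _ _ h1
    exact ⟨(mul_eq_zero.1 h4).resolve_right (inv_ne_zero ha), h3⟩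
  rw [hlast] at hfree
  obtain ⟨E, hE, hPE, hpath⟩ := path_lemma L p Γ y z hΓ hd hr hS hRed hfree
  rw [← hlast] at hpath
  refine ⟨E, hE, hPE, y, ?_⟩
  have : a • y + v = (last.1 : V →ₗ[F] V) z := by
    rw [hy, smul_smul, mul_inv_cancel₀ ha, one_smul]; abel
  rw [this]
  exact hpath

end Pool.Agent.H61.GLU
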