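import Pool.Agent.H61.GLU.Path2

open Cardinal Module

universe u

namespace Pool.Agent.H61.GLU

section group

variable {G : Type u} [Group G]

/-- value of a word: letters `(k, ε)` stand for `k * h ^ ±1`, the first letter acts first. -/
def wd (h : G) : List (G × Bool) → G
  | [] => 1
  | (k, ε) :: L => wd h L * (k * (if ε then h else h⁻¹))

theorem wd_append (h : G) : ∀ L₁ L₂ : List (G × Bool), wd h (L₁ ++ L₂) = wd h L₂ * wd h L₁
  | [], L₂ => by simp [wd]
  | (k, ε) :: L, L₂ => by
    rw [List.cons_append, wd, wd_append h L L₂, wd, mul_assoc]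

/-- reduced words, abstractly. -/
def RedG : List (G × Bool) → Prop
  | [] => True
  | [_] => True
  | p :: q :: L => (q.2 ≠ p.2 → p.1 ≠ 1) ∧ RedG (q :: L)

theorem not_red : ∀ L : List (G × Bool), ¬ RedG L → ∃ A ε k' ε' B,
    L = A ++ (1, ε) :: (k', ε') :: B ∧ ε' ≠ ε
  | [], h => absurd trivial h
  | [_], h => absurd trivial h
  | (k, ε) :: (k', ε') :: L, h => by
    by_cases h1 : RedG ((k', ε') :: L)
    · have h2 : ¬ (ε' ≠ ε → k ≠ 1) := fun h3 => h ⟨h3, h1⟩
      push Not at h2
      obtain ⟨h3, rfl⟩ := h2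
      exact ⟨[], ε, k', ε', L, rfl, h3⟩
    · obtain ⟨A, e, k'', e', B, hL, hne⟩ := not_red _ h1
      exact ⟨(k, ε) :: A, e, k'', e', B, by rw [hL]; rfl, hne⟩

theorem absorb (h : G) (K : Subgroup G) {k : G} (hk : k ∈ K) (B : List (G × Bool)) (hB : B ≠ [])
    (hKB : ∀ q ∈ B, q.1 ∈ K) :
    ∃ B' : List (G × Bool), B'.length = B.length ∧ (∀ q ∈ B', q.1 ∈ K) ∧
      wd h B' = k * wd h B := by
  obtain ⟨B₀, ⟨c, ε⟩, rfl⟩ : ∃ B₀ b, B = B₀ ++ [b] :=
    ⟨B.dropLast, B.getLast hB, (List.dropLast_append_getLast hB).symm⟩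
  refine ⟨B₀ ++ [(k * c, ε)], by simp, ?_, ?_⟩
  · intro q hq
    rw [List.mem_append] at hq
    rcases hq with hq | hq
    · exact hKB q (List.mem_append_left _ hq)
    · rw [List.mem_singleton] at hq
      rw [hq]
      exact K.mul_mem hk (hKB (c, ε) (List.mem_append_right _ (by simp)))
  · rw [wd_append, wd_append]
    simp [wd, mul_assoc]

theorem conj_rot (h : G) (L₁ L₂ : List (G × Bool)) : IsConj (wd h (L₁ ++ L₂)) (wd h (L₂ ++ L₁)) := by
  rw [wd_append, wd_append, isConj_iff]
  exact ⟨wd h L₁, by group⟩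

theorem cancel_conj (h : G) (ε ε' : Bool) (hne : ε' ≠ ε) (k' : G) (B : List (G × Bool)) :
    IsConj (wd h ((1, ε) :: (k', ε') :: B)) (k' * wd h B) := by
  have : wd h ((1, ε) :: (k', ε') :: B) = wd h B * k' := by
    cases ε <;> cases ε'
    · exact absurd rfl hne
    · simp [wd, mul_assoc]
    · simp [wd, mul_assoc]
    · exact absurd rfl hne
  rw [this, isConj_iff]
  exact ⟨k', by group⟩

theorem reduce (h : G) (K : Subgroup G) : ∀ (n : ℕ) (L : List (G × Bool)), L.length ≤ n →
    (∀ q ∈ L, q.1 ∈ K) →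
    (∃ k ∈ K, IsConj (wd h L) k) ∨ ∃ p L', (∀ q ∈ p :: L', q.1 ∈ K) ∧ RedG (p :: L') ∧
      (p.2 ≠ ((p :: L').getLast (List.cons_ne_nil _ _)).2 →
        ((p :: L').getLast (List.cons_ne_nil _ _)).1 ≠ 1) ∧
      IsConj (wd h L) (wd h (p :: L')) := by
  intro n
  induction n with
  | zero =>
    intro L hL _
    have : L = [] := List.length_eq_zero_iff.1 (Nat.le_zero.1 hL)
    subst this
    exact Or.inl ⟨1, K.one_mem, IsConj.refl _⟩
  | succ n ih =>
    intro L hL hK
    -- it suffices to produce a conjugate word starting with a cancellation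
    have key : ∀ (ε ε' : Bool) (k' : G) (B : List (G × Bool)), ε' ≠ ε →
        (∀ q ∈ (1, ε) :: (k', ε') :: B, q.1 ∈ K) → ((1, ε) :: (k', ε') :: B).length ≤ n + 1 →
        IsConj (wd h L) (wd h ((1, ε) :: (k', ε') :: B)) →
        (∃ k ∈ K, IsConj (wd h L) k) ∨ ∃ p L', (∀ q ∈ p :: L', q.1 ∈ K) ∧ RedG (p :: L') ∧
          (p.2 ≠ ((p :: L').getLast (List.cons_ne_nil _ _)).2 →
            ((p :: L').getLast (List.cons_ne_nil _ _)).1 ≠ 1) ∧
          IsConj (wd h L) (wd h (p :: L')) := by
      intro ε ε' k' B hne hKB hlen hconj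
      have h1 := hconj.trans (cancel_conj h ε ε' hne k' B)
      have hk' : k' ∈ K := hKB (k', ε') (by simp)
      rcases eq_or_ne B [] with rfl | hB
      · left
        exact ⟨k', hk', by simpa [wd] using h1⟩
      · obtain ⟨B', hl, hKB', hw⟩ := absorb h K hk' B hB
          (fun q hq => hKB q (List.mem_cons_of_mem _ (List.mem_cons_of_mem _ hq)))
        rw [← hw] at h1
        have hl' : B'.length ≤ n := by
          simp only [List.length_cons] at hlen
          omega
        rcases ih B' hl' hKB' with ⟨k, hk, hc⟩ | ⟨p, L', a1, a2, a3, a4⟩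
        · exact Or.inl ⟨k, hk, h1.trans hc⟩
        · exact Or.inr ⟨p, L', a1, a2, a3, h1.trans a4⟩
    match L, hL, hK, key with
    | [], _, _, _ => exact Or.inl ⟨1, K.one_mem, IsConj.refl _⟩
    | p :: L₀, hL, hK, key =>
      by_cases hR : RedG (p :: L₀)
      · by_cases hC : (p.2 ≠ ((p :: L₀).getLast (List.cons_ne_nil _ _)).2 →
            ((p :: L₀).getLast (List.cons_ne_nil _ _)).1 ≠ 1)
        · exact Or.inr ⟨p, L₀, hK, hR, hC, IsConj.refl _⟩
        · push Not at hC
          obtain ⟨hC1, hC2⟩ := hC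
          rcases eq_or_ne L₀ [] with rfl | hne
          · simp at hC1
          · rw [List.getLast_cons hne] at hC1 hC2
            obtain ⟨B₀, ⟨c, ε⟩, rfl⟩ : ∃ B₀ b, L₀ = B₀ ++ [b] :=
              ⟨L₀.dropLast, L₀.getLast hne, (List.dropLast_append_getLast hne).symm⟩
            simp only [List.getLast_append_singleton] at hC1 hC2
            subst hC2
            obtain ⟨k', ε'⟩ := p
            apply key ε ε' k' B₀ hC1
            · intro q hq
              apply hK
              simp only [List.mem_cons, List.mem_append, List.not_mem_nil, or_false] at hq ⊢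
              tauto
            · simp only [List.length_cons, List.length_append, List.length_nil] at hL ⊢
              omega
            · have := conj_rot h ((k', ε') :: B₀) [(1, ε)]
              simpa using this
      · obtain ⟨A, ε, k', ε', B, hLe, hne⟩ := not_red _ hR
        rw [hLe] at hK hL
        apply key ε ε' k' (B ++ A) hne
        · intro q hq
          apply hK
          simp only [List.mem_cons, List.mem_append] at hq ⊢
          tauto
        · simp only [List.length_cons, List.length_append] at hL ⊢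
          omega
        · rw [hLe]
          have := conj_rot h A ((1, ε) :: (k', ε') :: B)
          simpa using this

theorem closure_word (h : G) (K : Subgroup G) {x : G}
    (hx : x ∈ Subgroup.closure ((K : Set G) ∪ {h})) :
    ∃ (L : List (G × Bool)) (k : G), (∀ q ∈ L, q.1 ∈ K) ∧ k ∈ K ∧ x = wd h L * k := by
  induction hx using Subgroup.closure_induction_right with
  | one => exact ⟨[], 1, by simp, K.one_mem, by simp [wd]⟩
  | mul_right x hx y hy ih =>
    obtain ⟨L, k, hL, hk, rfl⟩ := ih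
    rcases hy with hy | hy
    · exact ⟨L, k * y, hL, K.mul_mem hk hy, by rw [mul_assoc]⟩
    · rw [Set.mem_singleton_iff] at hy
      subst hy
      refine ⟨(k, true) :: L, 1, ?_, K.one_mem, by simp [wd, mul_assoc]⟩
      intro q hq
      rcases List.mem_cons.1 hq with rfl | hq
      · exact hk
      · exact hL q hq
  | mul_inv_cancel x hx y hy ih =>
    obtain ⟨L, k, hL, hk, rfl⟩ := ih
    rcases hy with hy | hy
    · exact ⟨L, k * y⁻¹, hL, K.mul_mem hk (K.inv_mem hy), by rw [mul_assoc]⟩
    · rw [Set.mem_singleton_iff] at hy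
      subst hy
      refine ⟨(k, false) :: L, 1, ?_, K.one_mem, by simp [wd, mul_assoc]⟩
      intro q hq
      rcases List.mem_cons.1 hq with rfl | hq
      · exact hk
      · exact hL q hq

end group

variable {F : Type u} [Field F]
variable {V : Type u} [AddCommGroup V] [Module F V]

theorem red_iff : ∀ L : List (LinearMap.GeneralLinearGroup F V × Bool), RedG L → Red L
  | [], _ => trivial
  | [_], _ => trivial
  | _ :: q :: L, h => ⟨h.1, red_iff (q :: L) h.2⟩

theorem gl_inv_apply (k : LinearMap.GeneralLinearGroup F V) (v : V) :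
    ((k⁻¹ : LinearMap.GeneralLinearGroup F V) : V →ₗ[F] V) ((k : V →ₗ[F] V) v) = v := by
  have : (((k⁻¹ : LinearMap.GeneralLinearGroup F V) : Module.End F V) * (k : Module.End F V)) v
    = v := by rw [Units.inv_mul]; rfl
  exact this

theorem gl_apply_inv (k : LinearMap.GeneralLinearGroup F V) (v : V) :
    (k : V →ₗ[F] V) (((k⁻¹ : LinearMap.GeneralLinearGroup F V) : V →ₗ[F] V) v) = v := by
  have : ((k : Module.End F V) * ((k⁻¹ : LinearMap.GeneralLinearGroup F V) : Module.End F V)) v
    = v := by rw [Units.mul_inv]; rfl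
  exact this

theorem gl_mul_apply (k l : LinearMap.GeneralLinearGroup F V) (v : V) :
    ((k * l : LinearMap.GeneralLinearGroup F V) : V →ₗ[F] V) v =
      (k : V →ₗ[F] V) ((l : V →ₗ[F] V) v) := rfl

theorem SurjL.conj {k l : LinearMap.GeneralLinearGroup F V} (h : SurjL k) (hc : IsConj l k) :
    SurjL l := by
  obtain ⟨c, hc⟩ := isConj_iff.1 hc
  have hl : l = c⁻¹ * k * c := by rw [← hc]; group
  intro a ha v
  obtain ⟨w, hw⟩ := h a ha ((c : V →ₗ[F] V) v)
  refine ⟨((c⁻¹ : LinearMap.GeneralLinearGroup F V) : V →ₗ[F] V) w, ?_⟩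
  rw [hl, gl_mul_apply, gl_mul_apply, gl_apply_inv, hw, map_add, map_smul, gl_inv_apply]

/-- From cyclically reduced words to the whole group generated by `K` and `h`. -/
theorem closure_surj (K : Subgroup (LinearMap.GeneralLinearGroup F V))
    (hK : ∀ k ∈ K, k ≠ 1 → SurjL k) (h : LinearMap.GeneralLinearGroup F V)
    (hw : ∀ (p : LinearMap.GeneralLinearGroup F V × Bool)
      (L : List (LinearMap.GeneralLinearGroup F V × Bool)), (∀ q ∈ p :: L, q.1 ∈ K) →
      Red (p :: L) → (p.2 ≠ ((p :: L).getLast (List.cons_ne_nil _ _)).2 →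
        ((p :: L).getLast (List.cons_ne_nil _ _)).1 ≠ 1) → SurjL (wd h (p :: L))) :
    ∀ x ∈ Subgroup.closure ((K : Set (LinearMap.GeneralLinearGroup F V)) ∪ {h}),
      x ≠ 1 → SurjL x := by
  intro x hx hx1
  obtain ⟨L, k, hL, hk, hxe⟩ := closure_word h K hx
  -- x is conjugate to a word
  obtain ⟨L', hL', hc⟩ : (∃ L' : List (LinearMap.GeneralLinearGroup F V × Bool),
      (∀ q ∈ L', q.1 ∈ K) ∧ (IsConj x (wd h L') ∨ x ∈ K)) := by
    rcases eq_or_ne L [] with rfl | hne
    · exact ⟨[], by simp, Or.inr (by rw [hxe]; simpa [wd] using hk)⟩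
    · obtain ⟨B', _, hKB, hB⟩ := absorb h K hk L hne hL
      refine ⟨B', hKB, Or.inl ?_⟩
      rw [hB, hxe, isConj_iff]
      exact ⟨k, by group⟩
  rcases hc with hc | hc
  · rcases reduce h K L'.length L' le_rfl hL' with ⟨k', hk', hc'⟩ | ⟨p, L'', a1, a2, a3, a4⟩
    · have h1 : k' ≠ 1 := by
        rintro rfl
        have h2 := hc.trans hc'
        exact hx1 (isConj_one_left.1 h2)
      exact (hK k' hk' h1).conj (hc.trans hc')
    · exact (hw p L'' a1 (red_iff _ a2) a3).conj (hc.trans a4)
  · exact hK x hc hx1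

/-- Paths in the graph of `h` are given by the word. -/
theorem path_graph (h : LinearMap.GeneralLinearGroup F V) (Γ : Submodule F (V × V))
    (hΓ : ∀ p ∈ Γ, p.2 = (h : V →ₗ[F] V) p.1) :
    ∀ (L : List (LinearMap.GeneralLinearGroup F V × Bool)) (y y' : V), Path Γ L y y' →
      y' = ((wd h L : LinearMap.GeneralLinearGroup F V) : V →ₗ[F] V) y
  | [], y, y', hp => by
    have : y = y' := hp
    rw [this]; rfl
  | (k, true) :: L, y, y', ⟨z, hz, hp⟩ => by
    have h1 := hΓ _ hz
    have h2 : z = (h : V →ₗ[F] V) y := by simpa [tag] using h1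
    rw [path_graph h Γ hΓ L _ _ hp, h2]
    simp only [wd, gl_mul_apply, if_true]
  | (k, false) :: L, y, y', ⟨z, hz, hp⟩ => by
    have h1 := hΓ _ hz
    have h2 : y = (h : V →ₗ[F] V) z := by simpa [tag] using h1
    rw [path_graph h Γ hΓ L _ _ hp, h2]
    simp only [wd, gl_mul_apply, Bool.false_eq_true, if_false, gl_inv_apply]

end Pool.Agent.H61.GLU
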